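import Pool.Agent.H65.RFZ.QLAY

/-!
Row QSHD of the board rfz_modules: shields are likely if the tubes in two directions are easy.
-/

set_option autoImplicit false

noncomputable section

open MeasureTheory ProbabilityTheory

namespace Pool.Agent.H65.RFZ.QSHD

open Pool.Agent.H98.RFC Pool.Agent.H98.RFZ Pool.Agent.H65.RFZ.QUPG Pool.Agent.H65.RFZ.QLAY

theorem gam_prob : IsProbabilityMeasure gam := by
  unfold gam
  infer_instance

/-- Sites near the start of a tube are in the tube. -/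
theorem mem_tube {a b x : Site} {r : ℕ} (h : nsq (x - a) ≤ (r : ℤ) ^ 2) : x ∈ tube a b r := by
  classical
  unfold tube
  rw [Finset.mem_filter]
  refine ⟨?_, 0, le_rfl, zero_le_one, ?_⟩
  · unfold nsq at h
    rw [Prod.fst_sub, Prod.snd_sub] at h
    unfold bx
    rw [Finset.mem_product, Finset.mem_Icc, Finset.mem_Icc]
    have h1 : (x.1 - a.1) ^ 2 ≤ (r : ℤ) ^ 2 := by nlinarith [sq_nonneg (x.2 - a.2)]
    have h2 : (x.2 - a.2) ^ 2 ≤ (r : ℤ) ^ 2 := by nlinarith [sq_nonneg (x.1 - a.1)]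
    have h3 := abs_le_of_sq_le_sq' h1 (Int.natCast_nonneg r)
    have h4 := abs_le_of_sq_le_sq' h2 (Int.natCast_nonneg r)
    have h5 := Int.natCast_nonneg (b.1 - a.1).natAbs
    have h6 := Int.natCast_nonneg (b.2 - a.2).natAbs
    push_cast at h5 h6 ⊢
    refine ⟨⟨?_, ?_⟩, ?_, ?_⟩
    · linarith [h3.1]
    · linarith [h3.2]
    · linarith [h4.1]
    · linarith [h4.2]
  · unfold nsq at h
    rw [Prod.fst_sub, Prod.snd_sub] at h
    have h1 : (((x.1 - a.1) ^ 2 + (x.2 - a.2) ^ 2 : ℤ) : ℝ) ≤ (((r : ℤ) ^ 2 : ℤ) : ℝ) := by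
      exact_mod_cast h
    push_cast at h1
    calc _ = ((x.1 : ℝ) - a.1) ^ 2 + ((x.2 : ℝ) - a.2) ^ 2 := by ring
      _ ≤ _ := h1

theorem pf_QSHD (hDM : Z_DM) (hGP : Z_GP) (hC : C_MEA) (_hM : Z_MEA) : Q_SHD := by
  classical
  intro R J hJ hT ε φ δ s M K' u v₁ v₂ z V Λ hφ0 hφ1 hRNG hv₁ hv₂ hang hu hδ hp1 hp2 hzL hL hMK
  have := gam_prob
  obtain ⟨y, a, ha, hseg, hshield⟩ := hRNG v₁ v₂ hv₁ hv₂ hang u hu z
  -- the start points
  have hy : ∀ i, nsq (z - y i) ≤ (((M + 100) * u : ℕ) : ℤ) ^ 2 := by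
    intro i
    have h1 := hseg i (y i) ⟨0, le_rfl, zero_le_one, by
      have h2 : (((y i).1 : ℝ) - (((y i).1 : ℝ) + 0 * ((((y i + sm u (a i)).1 : ℤ) : ℝ) -
        ((y i).1 : ℝ)))) ^ 2 + (((y i).2 : ℝ) - (((y i).2 : ℝ) +
        0 * ((((y i + sm u (a i)).2 : ℤ) : ℝ) - ((y i).2 : ℝ)))) ^ 2 = 0 := by ring
      rw [h2]
      positivity⟩
    rw [mem_eb] at h1
    have h3 : nsq (z - y i) = nsq (y i - z) := by
      unfold nsq
      rw [Prod.fst_sub, Prod.snd_sub, Prod.fst_sub, Prod.snd_sub]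
      ring
    rw [h3]
    exact h1
  have hsub : ∀ i, Λ ⊆ tube (y i) (y i + sm u (a i)) (K' * u) := by
    intro i x hx
    refine mem_tube ?_
    have h1 := hL x hx
    have h2 : x - y i = (x - z) + (z - y i) := by abel
    have hMK' : (M : ℤ) + 200 ≤ K' := by exact_mod_cast hMK
    have hu0 : (0 : ℤ) ≤ u := Int.natCast_nonneg u
    have h3 : (0 : ℤ) ≤ ((K' : ℤ) - M - 200) * u := mul_nonneg (by linarith) hu0
    have h4 := nsq_add (x := x - z) (y := z - y i) h3
      (Int.natCast_nonneg ((M + 100) * u)) (by rw [mul_pow]; exact h1) (hy i)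
    rw [h2]
    refine h4.trans (pow_le_pow_left₀ (add_nonneg h3 (Int.natCast_nonneg _)) ?_ 2)
    push_cast
    nlinarith
  -- the events
  let A : Fin 4 → Set (Site → ℝ) := fun i =>
    {η | ¬ Crs R J (fun x => ε * η x) u (a i) K' (y i)}
  have hAm : ∀ i, MeasurableSet (A i) := fun i => ((hC R J hJ ε u (a i) K' (y i)).1).compl
  have hAP : ∀ i, (gam (A i)).toReal ≤ δ := by
    intro i
    obtain ⟨h1, -, h2⟩ := hC R J hJ ε u (a i) K' (y i)
    have h3 : A i = {η : Site → ℝ | Crs R J (fun x => ε * η x) u (a i) K' (y i)}ᶜ := rfl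
    have h4 : (gam (A i)).toReal = 1 - pC R J ε u (a i) K' := by
      rw [h3, ← h2]
      exact probReal_compl_eq_one_sub h1
    rw [h4]
    rcases ha i with h | h
    · rw [h]
      linarith
    · rw [h]
      linarith
  have hbad : {η | ¬ Shield (Ds R J (fun x => ε * shf V s η x) Λ) z u (M + 100)} ⊆
      ⋃ i, {η | shf V s η ∈ A i} := by
    intro η hη
    by_contra hcon
    rw [Set.mem_iUnion] at hcon
    push Not at hcon
    refine hη (hshield _ fun i => ?_)
    have h1 : Crs R J (fun x => ε * shf V s η x) u (a i) K' (y i) := by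
      have h2 := hcon i
      by_contra h3
      exact h2 h3
    obtain ⟨k, x, hpath, hnear, h0, hk⟩ := h1
    refine ⟨k, x, ?_, ?_, hnear, h0, hk⟩
    · intro j hj
      have h4 : x j ∈ Λ := hzL (hseg i _ (hnear j hj))
      exact hDM R J hJ _ Λ _ (hsub i) (Finset.mem_inter.2 ⟨hpath.1 j hj, h4⟩)
    · intro j hj
      exact hT _ (hpath.2 j hj).ne'
  have h1 : (gam {η | ¬ Shield (Ds R J (fun x => ε * shf V s η x) Λ) z u (M + 100)}).toReal ≤
      ∑ i, (gam {η | shf V s η ∈ A i}).toReal := by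
    rw [← ENNReal.toReal_sum fun i _ => measure_ne_top gam _]
    refine ENNReal.toReal_mono ?_ ((measure_mono hbad).trans (measure_iUnion_fintype_le _ _))
    exact (ENNReal.sum_lt_top.2 fun i _ => measure_lt_top gam _).ne
  refine h1.trans ?_
  have h2 : ∀ i, (gam {η | shf V s η ∈ A i}).toReal ≤
      Real.exp (s ^ 2 * (V.card : ℝ) / 2) * Real.sqrt δ := by
    intro i
    refine (hGP V s (A i) (hAm i)).trans ?_
    exact mul_le_mul_of_nonneg_left (Real.sqrt_le_sqrt (hAP i)) (Real.exp_pos _).le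
  refine (Finset.sum_le_sum fun i _ => h2 i).trans (le_of_eq ?_)
  rw [Finset.sum_const, Finset.card_univ, Fintype.card_fin, nsmul_eq_mul]
  norm_num

end Pool.Agent.H65.RFZ.QSHD
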