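import Pool.Agent.H65.RFZ.QUPG

/-!
Row QLAY of the board rfz_modules: many sites if the minimal cut is large.
-/

set_option autoImplicit false

noncomputable section

namespace Pool.Agent.H65.RFZ.QLAY

open Pool.Agent.H98.RFC Pool.Agent.H98.RFZ Pool.Agent.H65.RFZ.QUPG

theorem nsq_add {x y : Site} {s t : ℤ} (hs : 0 ≤ s) (ht : 0 ≤ t) (hx : nsq x ≤ s ^ 2)
    (hy : nsq y ≤ t ^ 2) : nsq (x + y) ≤ (s + t) ^ 2 := by
  unfold nsq at *
  rw [Prod.fst_add, Prod.snd_add]
  have h1 : (x.1 * y.1 + x.2 * y.2) ^ 2 ≤ (s * t) ^ 2 := by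
    have h2 : (x.1 * y.1 + x.2 * y.2) ^ 2 ≤ (x.1 ^ 2 + x.2 ^ 2) * (y.1 ^ 2 + y.2 ^ 2) := by
      nlinarith [sq_nonneg (x.1 * y.2 - x.2 * y.1)]
    have h3 : (x.1 ^ 2 + x.2 ^ 2) * (y.1 ^ 2 + y.2 ^ 2) ≤ s ^ 2 * t ^ 2 :=
      mul_le_mul hx hy (by positivity) (by positivity)
    calc _ ≤ _ := h2
      _ ≤ _ := h3
      _ = _ := by ring
  have h4 := (abs_le_of_sq_le_sq' h1 (mul_nonneg hs ht)).2
  nlinarith

theorem box_nsq {R : ℕ} {y : Site} (hy : y ∈ box R) : nsq y ≤ (2 * (R : ℤ)) ^ 2 := by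
  unfold box at hy
  rw [Finset.mem_product, Finset.mem_Icc, Finset.mem_Icc] at hy
  unfold nsq
  nlinarith [hy.1.1, hy.1.2, hy.2.1, hy.2.2]

theorem box_neg {R : ℕ} {y : Site} (hy : y ∈ box R) : -y ∈ box R := by
  unfold box at hy ⊢
  rw [Finset.mem_product, Finset.mem_Icc, Finset.mem_Icc] at hy ⊢
  rw [Prod.fst_neg, Prod.snd_neg]
  refine ⟨⟨?_, ?_⟩, ?_, ?_⟩ <;> linarith [hy.1.1, hy.1.2, hy.2.1, hy.2.2]

/-- Neighbours of an inner ball are in the larger ball. -/
theorem eb_step {R r : ℕ} {z a b : Site} (ha : a ∈ eb z r) (hab : a - b ∈ box R) :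
    b ∈ eb z (r + 2 * R) := by
  rw [mem_eb] at ha ⊢
  have h1 : b - z = (a - z) + (-(a - b)) := by abel
  rw [h1]
  have h2 := nsq_add (Int.natCast_nonneg r) (by positivity : (0 : ℤ) ≤ 2 * R) ha
    (box_nsq (box_neg hab))
  push_cast
  exact h2

theorem sum_J_le {R : ℕ} {J : Site → ℝ} (hJ : IsCoupling R J) (a : Site) (T : Finset Site) :
    ∑ b ∈ T, J (a - b) ≤ Jt R J := by
  classical
  have h1 : ∑ b ∈ T, J (a - b) = ∑ c ∈ T.image (fun b => a - b), J c := by
    rw [Finset.sum_image]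
    intro x _ y _ hxy
    simpa using hxy
  rw [h1]
  have h2 : ∑ c ∈ T.image (fun b => a - b), J c =
      ∑ c ∈ (T.image (fun b => a - b)).filter (fun c => c ∈ box R), J c := by
    rw [Finset.sum_filter]
    refine Finset.sum_congr rfl fun c _ => ?_
    by_cases h : c ∈ box R
    · rw [if_pos h]
    · rw [if_neg h, hJ.range c h]
  rw [h2]
  unfold Jt
  refine Finset.sum_le_sum_of_subset_of_nonneg ?_ fun c _ _ => hJ.nonneg c
  intro c hc
  exact (Finset.mem_filter.1 hc).2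

/-- Capacity of a ball: only the outer shell counts. -/
theorem cap_ball {R : ℕ} {J : Site → ℝ} (hJ : IsCoupling R J) (D : Finset Site) (z : Site)
    (r : ℕ) : cap R J ↑D (eb z (r + 2 * R)) ≤
      Jt R J * (((D ∩ eb z (r + 2 * R)).card : ℝ) - ((D ∩ eb z r).card : ℝ)) := by
  classical
  have hmono : eb z r ⊆ eb z (r + 2 * R) := eb_mono z (Nat.le_add_right _ _)
  have h0 : ((D ∩ eb z (r + 2 * R)).card : ℝ) - ((D ∩ eb z r).card : ℝ) =
      (((D ∩ eb z (r + 2 * R)) \ (D ∩ eb z r)).card : ℝ) := by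
    rw [Finset.card_sdiff_of_subset (Finset.inter_subset_inter_left hmono),
      Nat.cast_sub (Finset.card_le_card (Finset.inter_subset_inter_left hmono))]
  rw [h0]
  unfold cap
  refine (Finset.sum_le_sum (g := fun a =>
      if a ∈ (D ∩ eb z (r + 2 * R)) \ (D ∩ eb z r) then Jt R J else 0) ?_).trans (le_of_eq ?_)
  · intro a ha
    by_cases h2 : a ∈ (D ∩ eb z (r + 2 * R)) \ (D ∩ eb z r)
    · rw [if_pos h2]
      refine le_trans (Finset.sum_le_sum fun b _ => ?_) (sum_J_le hJ a _)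
      by_cases h3 : a ∈ (↑D : Set Site) ∧ b ∈ (↑D : Set Site)
      · rw [if_pos h3]
      · rw [if_neg h3]
        exact hJ.nonneg _
    · rw [if_neg h2]
      refine (Finset.sum_eq_zero fun b hb => ?_).le
      by_cases h3 : a ∈ (↑D : Set Site) ∧ b ∈ (↑D : Set Site)
      · rw [if_pos h3]
        have haD : a ∈ D := h3.1
        have h4 : a ∈ eb z r := by
          by_contra h4
          refine h2 ?_
          rw [Finset.mem_sdiff, Finset.mem_inter, Finset.mem_inter]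
          exact ⟨⟨haD, ha⟩, fun h5 => h4 h5.2⟩
        refine hJ.range _ fun h5 => ?_
        exact (Finset.mem_sdiff.1 hb).2 (eb_step h4 h5)
      · rw [if_neg h3]
  rw [Finset.sum_ite_mem, Finset.sum_const, nsmul_eq_mul]
  have h3 : eb z (r + 2 * R) ∩ ((D ∩ eb z (r + 2 * R)) \ (D ∩ eb z r)) =
      (D ∩ eb z (r + 2 * R)) \ (D ∩ eb z r) := by
    refine Finset.inter_eq_right.2 ?_
    exact Finset.sdiff_subset.trans Finset.inter_subset_right
  rw [h3]
  ring

theorem cap_nonneg {R : ℕ} {J : Site → ℝ} (hJ : IsCoupling R J) (D : Set Site)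
    (U : Finset Site) : 0 ≤ cap R J D U := by
  classical
  unfold cap
  refine Finset.sum_nonneg fun a _ => Finset.sum_nonneg fun b _ => ?_
  by_cases h3 : a ∈ D ∧ b ∈ D
  · rw [if_pos h3]
    exact hJ.nonneg _
  · rw [if_neg h3]

theorem Jt_nonneg {R : ℕ} {J : Site → ℝ} (hJ : IsCoupling R J) : 0 ≤ Jt R J :=
  Finset.sum_nonneg fun z _ => hJ.nonneg z

theorem pf_QLAY : Q_LAY := by
  classical
  intro R J hJ hR h u C z hu hC
  set D := Ds R J h (eb z (C * u)) with hD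
  -- `cz` is at most every capacity
  have hcz : ∀ U : Finset Site, eb z (5 * u) ⊆ U → U ⊆ eb z (10 * u) →
      cz R J h u C z ≤ cap R J ↑D U := by
    intro U h1 h2
    unfold cz
    exact Finset.inf'_le (fun U => cap R J ↑(Ds R J h (eb z (C * u))) U)
      (Finset.mem_filter.2 ⟨Finset.mem_powerset.2 h2, Or.inl h1⟩)
  have hcz0 : 0 ≤ cz R J h u C z := by
    unfold cz
    rw [Finset.le_inf'_iff]
    intro U _
    exact cap_nonneg hJ _ _
  -- the number of shells
  obtain ⟨m, hm1, hm2⟩ : ∃ m : ℕ, 2 * R * m ≤ 5 * u ∧ u ≤ R * m := by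
    refine ⟨5 * u / (2 * R), Nat.mul_div_le _ _, ?_⟩
    have h1 : 5 * u < 2 * R * (5 * u / (2 * R) + 1) := Nat.lt_mul_div_succ _ (by omega)
    generalize 5 * u / (2 * R) = q at h1
    nlinarith
  let g : ℕ → ℝ := fun k => ((D ∩ eb z (5 * u + 2 * R * k)).card : ℝ)
  have hk : ∀ k, k < m → cz R J h u C z ≤ Jt R J * (g (k + 1) - g k) := by
    intro k hk
    have h1 : 5 * u + 2 * R * (k + 1) = (5 * u + 2 * R * k) + 2 * R := by ring
    have h2 : 2 * R * (k + 1) ≤ 2 * R * m := Nat.mul_le_mul_left _ hk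
    refine (hcz (eb z (5 * u + 2 * R * (k + 1))) (eb_mono z (Nat.le_add_right _ _))
      (eb_mono z (by omega))).trans ?_
    have h3 := cap_ball hJ D z (5 * u + 2 * R * k)
    rw [← h1] at h3
    exact h3
  have hsum : (m : ℝ) * cz R J h u C z ≤ Jt R J * (g m - g 0) := by
    have h1 : ∑ _k ∈ Finset.range m, cz R J h u C z ≤
        ∑ k ∈ Finset.range m, Jt R J * (g (k + 1) - g k) :=
      Finset.sum_le_sum fun k hk' => hk k (Finset.mem_range.1 hk')
    rw [Finset.sum_const, Finset.card_range, nsmul_eq_mul, ← Finset.mul_sum,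
      Finset.sum_range_sub g] at h1
    exact h1
  have hg : g m - g 0 ≤ (((D ∩ eb z (10 * u)) \ eb z (5 * u)).card : ℝ) := by
    have h1 : D ∩ eb z (5 * u) ⊆ D ∩ eb z (10 * u) :=
      Finset.inter_subset_inter_left (eb_mono z (by omega))
    have h2 : (D ∩ eb z (10 * u)) \ eb z (5 * u) = (D ∩ eb z (10 * u)) \ (D ∩ eb z (5 * u)) := by
      ext x
      simp only [Finset.mem_sdiff, Finset.mem_inter]
      tauto
    rw [h2, Finset.card_sdiff_of_subset h1, Nat.cast_sub (Finset.card_le_card h1)]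
    have h3 : g m ≤ ((D ∩ eb z (10 * u)).card : ℝ) := by
      have h4 : D ∩ eb z (5 * u + 2 * R * m) ⊆ D ∩ eb z (10 * u) :=
        Finset.inter_subset_inter_left (eb_mono z (by omega))
      have h5 : (D ∩ eb z (5 * u + 2 * R * m)).card ≤ (D ∩ eb z (10 * u)).card :=
        Finset.card_le_card h4
      show (((D ∩ eb z (5 * u + 2 * R * m)).card : ℕ) : ℝ) ≤ _
      exact_mod_cast h5
    have h4 : g 0 = ((D ∩ eb z (5 * u)).card : ℝ) := by
      simp [g]
    linarith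
  have hu' : (u : ℝ) ≤ (R : ℝ) * m := by exact_mod_cast hm2
  have hJt := Jt_nonneg hJ
  calc cz R J h u C z * (u : ℝ) ≤ cz R J h u C z * ((R : ℝ) * m) :=
        mul_le_mul_of_nonneg_left hu' hcz0
    _ = R * ((m : ℝ) * cz R J h u C z) := by ring
    _ ≤ R * (Jt R J * (g m - g 0)) := mul_le_mul_of_nonneg_left hsum (Nat.cast_nonneg R)
    _ ≤ R * (Jt R J * (((D ∩ eb z (10 * u)) \ eb z (5 * u)).card : ℝ)) :=
        mul_le_mul_of_nonneg_left (mul_le_mul_of_nonneg_left hg hJt) (Nat.cast_nonneg R)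
    _ = _ := by ring

end Pool.Agent.H65.RFZ.QLAY
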