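import Pool.Agent.H98.RFZ.Targets

/-!
Row CM of the board rfz_modules: the Cameron Martin formula.
-/

set_option autoImplicit false

noncomputable section

open MeasureTheory ProbabilityTheory

namespace Pool.Agent.H65.RFZ.CM

open Pool.Agent.H98.RFC Pool.Agent.H98.RFZ

/-- The one dimensional density. -/
def dn (s y : ℝ) : ENNReal := ENNReal.ofReal (Real.exp (s * y - s ^ 2 / 2))

theorem dn_meas (s : ℝ) : Measurable (dn s) := by
  unfold dn
  fun_prop

theorem cm1 (s : ℝ) (t : Set ℝ) (ht : MeasurableSet t) :
    ∫⁻ y in t, dn s y ∂(gaussianReal 0 1) = gaussianReal s 1 t := by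
  rw [gaussianReal_apply s one_ne_zero, gaussianReal_of_var_ne_zero 0 one_ne_zero,
    setLIntegral_withDensity_eq_setLIntegral_mul _ (measurable_gaussianPDF 0 1) (dn_meas s) ht]
  refine lintegral_congr fun y => ?_
  simp only [Pi.mul_apply]
  unfold dn gaussianPDF
  rw [← ENNReal.ofReal_mul (gaussianPDFReal_nonneg _ _ _)]
  congr 1
  rw [gaussianPDFReal_def, gaussianPDFReal_def]
  simp only
  rw [mul_assoc, ← Real.exp_add]
  congr 2
  simp only [NNReal.coe_one]
  ring

theorem pi_form (V : Finset Site) (s : ℝ) :
    gam.withDensity (fun η => ∏ x ∈ V, dn s (η x)) =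
      Measure.infinitePi (fun x : Site => gaussianReal (if x ∈ V then s else 0) 1) := by
  classical
  refine Measure.eq_infinitePi _ fun F t ht => ?_
  have hpi : MeasurableSet ((F : Set Site).pi t) :=
    MeasurableSet.pi (Finset.countable_toSet _) fun i _ => ht i
  rw [withDensity_apply _ hpi, ← lintegral_indicator hpi]
  -- the factors
  let G : Site → ℝ → ENNReal := fun x y =>
    (if x ∈ F then (t x).indicator (fun _ => (1 : ENNReal)) y else 1) *
      (if x ∈ V then dn s y else 1)
  have hG : ∀ x, Measurable (G x) := by
    intro x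
    refine Measurable.mul ?_ ?_
    · by_cases h : x ∈ F
      · simp only [h, if_true]
        exact measurable_const.indicator (ht x)
      · simp only [h, if_false]
        exact measurable_const
    · by_cases h : x ∈ V
      · simp only [h, if_true]
        exact dn_meas s
      · simp only [h, if_false]
        exact measurable_const
  have hprod : ∀ η : Site → ℝ, ((F : Set Site).pi t).indicator (fun η => ∏ x ∈ V, dn s (η x)) η =
      ∏ x ∈ F ∪ V, G x (η x) := by
    intro η
    simp only [G]
    rw [Finset.prod_mul_distrib]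
    have h1 : ∏ x ∈ F ∪ V, (if x ∈ V then dn s (η x) else 1) = ∏ x ∈ V, dn s (η x) := by
      rw [Finset.prod_ite_mem]
      congr 1
      ext x
      simp only [Finset.mem_inter, Finset.mem_union]
      tauto
    have h2 : ∏ x ∈ F ∪ V, (if x ∈ F then (t x).indicator (fun _ => (1 : ENNReal)) (η x) else 1) =
        ∏ x ∈ F, (t x).indicator (fun _ => (1 : ENNReal)) (η x) := by
      rw [Finset.prod_ite_mem]
      congr 1
      ext x
      simp only [Finset.mem_inter, Finset.mem_union]
      tauto
    rw [h1, h2]
    by_cases h : η ∈ (F : Set Site).pi t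
    · have h3 : ∏ x ∈ F, (t x).indicator (fun _ => (1 : ENNReal)) (η x) = 1 :=
        Finset.prod_eq_one fun x hx => Set.indicator_of_mem (h x hx) _
      rw [Set.indicator_of_mem h, h3, one_mul]
    · rw [Set.indicator_of_notMem h]
      rw [Set.mem_pi] at h
      push Not at h
      obtain ⟨x, hx, hxt⟩ := h
      rw [Finset.prod_eq_zero (Finset.mem_coe.1 hx) (Set.indicator_of_notMem hxt _), zero_mul]
  rw [lintegral_congr hprod]
  have hind : iIndepFun (fun (x : Site) (η : Site → ℝ) => G x (η x)) gam :=
    iIndepFun_infinitePi (X := fun x y => G x y) hG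
  have hlp := lintegral_prod_eq_prod_lintegral_of_indepFun (F ∪ V)
    (fun (x : Site) (η : Site → ℝ) => G x (η x)) hind
    (fun x => (hG x).comp (measurable_pi_apply x))
  rw [hlp]
  -- each factor
  have hmap : ∀ x : Site, ∫⁻ η, G x (η x) ∂gam = ∫⁻ y, G x y ∂(gaussianReal 0 1) := by
    intro x
    have h5 : gam.map (fun η : Site → ℝ => η x) = gaussianReal 0 1 :=
      Measure.infinitePi_map_eval _ x
    rw [← h5, lintegral_map (hG x) (measurable_pi_apply x)]
  have hfac : ∀ x : Site, ∫⁻ η, G x (η x) ∂gam =
      if x ∈ F then gaussianReal (if x ∈ V then s else 0) 1 (t x) else 1 := by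
    intro x
    rw [hmap]
    simp only [G]
    by_cases h1 : x ∈ F
    · by_cases h2 : x ∈ V
      · simp only [h1, h2, if_true]
        rw [← cm1 s (t x) (ht x), ← lintegral_indicator (ht x)]
        refine lintegral_congr fun y => ?_
        by_cases h3 : y ∈ t x <;> simp [h3]
      · simp only [h1, h2, if_true, if_false, mul_one]
        rw [lintegral_indicator (ht x)]
        simp
    · by_cases h2 : x ∈ V
      · simp only [h1, h2, if_true, if_false, one_mul]
        have h3 := cm1 s Set.univ MeasurableSet.univ
        rw [Measure.restrict_univ, measure_univ] at h3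
        exact h3
      · simp [h1, h2]
  rw [Finset.prod_congr rfl fun x _ => hfac x, Finset.prod_ite_mem]
  refine Finset.prod_congr ?_ fun x _ => rfl
  ext x
  simp only [Finset.mem_inter, Finset.mem_union]
  tauto

theorem map_shf (V : Finset Site) (s : ℝ) :
    gam.map (shf V s) =
      Measure.infinitePi (fun x : Site => gaussianReal (if x ∈ V then s else 0) 1) := by
  classical
  have h1 : shf V s = fun (η : Site → ℝ) (x : Site) =>
      (fun (x : Site) (y : ℝ) => y + if x ∈ V then s else 0) x (η x) := by
    funext η x
    rfl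
  rw [h1]
  unfold gam
  rw [Measure.infinitePi_map_pi (fun _ : Site => gaussianReal 0 1)
    (f := fun (x : Site) (y : ℝ) => y + if x ∈ V then s else 0) (fun x => by fun_prop)]
  congr 1
  funext x
  rw [gaussianReal_map_add_const, zero_add]

theorem shf_meas (V : Finset Site) (s : ℝ) : Measurable (shf V s) := by
  rw [measurable_pi_iff]
  intro x
  unfold shf
  fun_prop

theorem pf_CM : Z_CM := by
  classical
  intro V s f hf _
  have hden : Measurable (fun η : Site → ℝ => ∏ x ∈ V, dn s (η x)) :=
    Finset.measurable_prod V fun x _ => (dn_meas s).comp (measurable_pi_apply x)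
  have h0 : ∫ η, f (shf V s η) ∂gam = ∫ η, f η ∂(gam.map (shf V s)) :=
    (integral_map (shf_meas V s).aemeasurable hf.aestronglyMeasurable).symm
  rw [h0, map_shf, ← pi_form, integral_withDensity_eq_integral_toReal_smul hden]
  · refine integral_congr_ae (Filter.Eventually.of_forall fun η => ?_)
    simp only [smul_eq_mul]
    rw [mul_comm]
    congr 1
    rw [ENNReal.toReal_prod]
    unfold dn
    simp only [ENNReal.toReal_ofReal (Real.exp_pos _).le]
    rw [← Real.exp_sum]
    congr 1
    rw [Finset.sum_sub_distrib, Finset.sum_const, ← Finset.mul_sum, nsmul_eq_mul]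
    ring
  · refine Filter.Eventually.of_forall fun η => ?_
    exact ENNReal.prod_lt_top fun x _ => ENNReal.ofReal_lt_top

end Pool.Agent.H65.RFZ.CM
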