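import Pool.Agent.H98.RFZ.Targets
import Pool.Agent.H65.RFC.SUB

/-!
Row CON of the board rfz_modules: every site of the disagreement set is joined to the outside
inside the disagreement set.
-/

set_option autoImplicit false

noncomputable section

namespace Pool.Agent.H65.RFZ.CON1

open Pool.Agent.H98.RFC Pool.Agent.H98.RFZ

/-- Flipping a set `C` without bonds to the disagreement set and to the outside. -/
theorem flip {R : ℕ} {J : Site → ℝ} (hJ : IsCoupling R J) (h : Site → ℝ) (Λ C : Finset Site)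
    (A A' : Set Site) (hC : ∀ x ∈ C, x ∈ A ∧ x ∉ A')
    (hb : ∀ x ∈ C, ∀ y, y ∉ C → 0 < J (y - x) → (y ∈ A ↔ y ∈ A')) (hCL : C ⊆ Λ) :
    en R J h Λ (A \ ↑C) + en R J h Λ (A' ∪ ↑C) = en R J h Λ A + en R J h Λ A' := by
  classical
  have hin : ∀ x ∈ C, sg (A \ ↑C) x = -1 ∧ sg (A' ∪ ↑C) x = 1 ∧ sg A x = 1 ∧ sg A' x = -1 := by
    intro x hx
    obtain ⟨h1, h2⟩ := hC x hx
    unfold sg
    simp [h1, h2, hx]
  have hout : ∀ x, x ∉ C → sg (A \ ↑C) x = sg A x ∧ sg (A' ∪ ↑C) x = sg A' x := by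
    intro x hx
    unfold sg
    simp [hx]
  have hag : ∀ x ∈ C, ∀ y, y ∉ C → 0 < J (y - x) → sg A y = sg A' y := by
    intro x hx y hy hxy
    have h1 := hb x hx y hy hxy
    unfold sg
    by_cases h2 : y ∈ A
    · simp [h2, h1.1 h2]
    · have h3 : y ∉ A' := fun h3 => h2 (h1.2 h3)
      simp [h2, h3]
  have hpair : ∀ p ∈ prs R Λ, J (p.1 - p.2) * sg (A \ ↑C) p.1 * sg (A \ ↑C) p.2 +
      J (p.1 - p.2) * sg (A' ∪ ↑C) p.1 * sg (A' ∪ ↑C) p.2 =
      J (p.1 - p.2) * sg A p.1 * sg A p.2 + J (p.1 - p.2) * sg A' p.1 * sg A' p.2 := by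
    intro p _
    by_cases h1 : p.1 ∈ C
    · obtain ⟨a1, a2, a3, a4⟩ := hin _ h1
      by_cases h2 : p.2 ∈ C
      · obtain ⟨b1, b2, b3, b4⟩ := hin _ h2
        rw [a1, a2, a3, a4, b1, b2, b3, b4]
        ring
      · obtain ⟨b1, b2⟩ := hout _ h2
        rw [a1, a2, a3, a4, b1, b2]
        rcases (hJ.nonneg (p.1 - p.2)).eq_or_lt with h0 | h0
        · rw [← h0]
          ring
        · have h3 : 0 < J (p.2 - p.1) := by
            have h4 := hJ.even (p.1 - p.2)
            rw [neg_sub] at h4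
            rw [h4]
            exact h0
          rw [hag _ h1 _ h2 h3]
          ring
    · obtain ⟨a1, a2⟩ := hout _ h1
      by_cases h2 : p.2 ∈ C
      · obtain ⟨b1, b2, b3, b4⟩ := hin _ h2
        rw [a1, a2, b1, b2, b3, b4]
        rcases (hJ.nonneg (p.1 - p.2)).eq_or_lt with h0 | h0
        · rw [← h0]
          ring
        · rw [hag _ h2 _ h1 h0]
          ring
      · obtain ⟨b1, b2⟩ := hout _ h2
        rw [a1, a2, b1, b2]
  have hfield : ∀ x ∈ Λ, h x * sg (A \ ↑C) x + h x * sg (A' ∪ ↑C) x =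
      h x * sg A x + h x * sg A' x := by
    intro x _
    by_cases h1 : x ∈ C
    · obtain ⟨a1, a2, a3, a4⟩ := hin _ h1
      rw [a1, a2, a3, a4]
      ring
    · obtain ⟨a1, a2⟩ := hout _ h1
      rw [a1, a2]
  unfold en
  have h1 := Finset.sum_congr rfl hpair
  have h2 := Finset.sum_congr rfl hfield
  rw [Finset.sum_add_distrib, Finset.sum_add_distrib] at h1 h2
  linarith

theorem pf_CON (hLAT : Z_LAT) : Z_CON := by
  classical
  intro R J hJ h Λ hp hn z hz
  by_contra hcon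
  push Not at hcon
  -- the two ground states
  have hd1 : Disjoint ((↑Λ : Set Site)ᶜ) (↑Λ : Set Site) := disjoint_compl_left
  have hd2 : Disjoint (∅ : Set Site) (↑Λ : Set Site) := Set.empty_disjoint _
  obtain ⟨-, hgp, -, -⟩ := hLAT R J hJ h Λ (↑Λ)ᶜ hd1
  obtain ⟨-, -, hgn, -⟩ := hLAT R J hJ h Λ ∅ hd2
  set P := gp R J h Λ (↑Λ)ᶜ with hP
  set N := gn R J h Λ ∅ with hN
  obtain ⟨P', hP'⟩ := Finset.card_eq_one.1 hp
  obtain ⟨N', hN'⟩ := Finset.card_eq_one.1 hn
  have hPu : ∀ S ∈ gs R J h Λ (↑Λ)ᶜ, S = P := by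
    intro S hS
    rw [hP', Finset.mem_singleton] at hS hgp
    rw [hS, hgp]
  have hNu : ∀ S ∈ gs R J h Λ ∅, S = N := by
    intro S hS
    rw [hN', Finset.mem_singleton] at hS hgn
    rw [hS, hgn]
  have hPgs := hgp
  have hNgs := hgn
  unfold gs at hPgs hNgs
  rw [Finset.mem_filter] at hPgs hNgs
  obtain ⟨hPL, hPmin⟩ := hPgs
  obtain ⟨hNL, hNmin⟩ := hNgs
  rw [Finset.mem_powerset] at hPL hNL
  -- `N ⊆ P`
  have hNP : N ⊆ P := by
    have h1 := Pool.Agent.H65.RFC.pf_SUB R J hJ h Λ (↑P ∪ (↑Λ)ᶜ) (↑N ∪ ∅)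
    have h2 : ((↑P ∪ (↑Λ)ᶜ) ∩ (↑N ∪ ∅) : Set Site) = ↑(P ∩ N) ∪ ∅ := by
      ext x
      simp only [Set.mem_inter_iff, Set.mem_union, Finset.mem_coe, Set.mem_compl_iff,
        Set.mem_empty_iff_false, or_false, Finset.mem_inter]
      constructor
      · rintro ⟨h3 | h3, h4⟩
        · exact ⟨h3, h4⟩
        · exact absurd (hNL h4) h3
      · rintro ⟨h3, h4⟩
        exact ⟨Or.inl h3, h4⟩
    have h3 : ((↑P ∪ (↑Λ)ᶜ) ∪ (↑N ∪ ∅) : Set Site) = ↑(P ∪ N) ∪ (↑Λ)ᶜ := by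
      ext x
      simp only [Set.mem_union, Finset.mem_coe, Set.mem_compl_iff, Set.mem_empty_iff_false,
        or_false, Finset.mem_union]
      tauto
    rw [h2, h3] at h1
    have h4 := hNmin (P ∩ N) (Finset.mem_powerset.2 (Finset.inter_subset_left.trans hPL))
    have h5 : P ∪ N ∈ gs R J h Λ (↑Λ)ᶜ := by
      unfold gs
      rw [Finset.mem_filter, Finset.mem_powerset]
      refine ⟨Finset.union_subset hPL hNL, fun S' hS' => ?_⟩
      have h6 := hPmin S' hS'
      linarith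
    have h6 := hPu _ h5
    intro x hx
    rw [← h6]
    exact Finset.mem_union_right _ hx
  -- the component
  let C : Finset Site := (Ds R J h Λ).filter
    (fun y => ∃ (k : ℕ) (x : ℕ → Site), IsPath J (Ds R J h Λ) k x ∧ x 0 = z ∧ x k = y)
  have hCmem : ∀ y, y ∈ C ↔ y ∈ Ds R J h Λ ∧
      ∃ (k : ℕ) (x : ℕ → Site), IsPath J (Ds R J h Λ) k x ∧ x 0 = z ∧ x k = y := by
    intro y
    exact Finset.mem_filter
  have hzC : z ∈ C := by
    rw [hCmem]
    exact ⟨hz, 0, fun _ => z, ⟨fun _ _ => hz, fun i hi => absurd hi (Nat.not_lt_zero i)⟩, rfl, rfl⟩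
  have hCD : ∀ y ∈ C, y ∈ P ∧ y ∉ N := by
    intro y hy
    have h1 := ((hCmem y).1 hy).1
    unfold Ds at h1
    rwa [Finset.mem_sdiff] at h1
  have hCP : C ⊆ P := fun y hy => (hCD y hy).1
  have hbd : ∀ x ∈ C, ∀ y, y ∉ C → 0 < J (y - x) →
      (y ∈ (↑P ∪ (↑Λ)ᶜ : Set Site) ↔ y ∈ (↑N ∪ ∅ : Set Site)) := by
    intro x hx y hy hxy
    obtain ⟨hxD, k, w, hw, hw0, hwk⟩ := (hCmem x).1 hx
    have hyL : y ∈ Λ := by
      by_contra hyL
      have h1 := hcon k w hw hw0 y hyL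
      rw [hwk] at h1
      linarith
    have hyD : y ∉ Ds R J h Λ := by
      intro hyD
      refine hy ((hCmem y).2 ⟨hyD, k + 1, fun i => if i ≤ k then w i else y, ⟨?_, ?_⟩, ?_, ?_⟩)
      · intro i _
        by_cases h2 : i ≤ k
        · simp only [h2, if_true]
          exact hw.1 i h2
        · simp only [h2, if_false]
          exact hyD
      · intro i hi
        by_cases h2 : i + 1 ≤ k
        · have h3 : i ≤ k := by omega
          simp only [h2, h3, if_true]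
          exact hw.2 i (by omega)
        · have h3 : i = k := by omega
          subst h3
          simp only [le_refl, if_true]
          rw [if_neg (by omega), hwk]
          exact hxy
      · simp [hw0]
      · simp
    unfold Ds at hyD
    rw [Finset.mem_sdiff] at hyD
    push Not at hyD
    simp only [Set.mem_union, Finset.mem_coe, Set.mem_compl_iff, Set.mem_empty_iff_false, or_false]
    constructor
    · rintro (h1 | h1)
      · exact hyD h1
      · exact absurd hyL h1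
    · intro h1
      exact Or.inl (hNP h1)
  have hfl := flip hJ h Λ C (↑P ∪ (↑Λ)ᶜ) (↑N ∪ ∅) (by
      intro x hx
      obtain ⟨h1, h2⟩ := hCD x hx
      simp [h1, h2]) hbd (hCP.trans hPL)
  have e1 : ((↑P ∪ (↑Λ)ᶜ) \ ↑C : Set Site) = ↑(P \ C) ∪ (↑Λ)ᶜ := by
    ext x
    simp only [Set.mem_sdiff, Set.mem_union, Finset.mem_coe, Set.mem_compl_iff, Finset.mem_sdiff]
    constructor
    · rintro ⟨h1 | h1, h2⟩
      · exact Or.inl ⟨h1, h2⟩
      · exact Or.inr h1
    · rintro (⟨h1, h2⟩ | h1)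
      · exact ⟨Or.inl h1, h2⟩
      · exact ⟨Or.inr h1, fun h2 => h1 (hPL (hCP h2))⟩
  have e2 : ((↑N ∪ ∅) ∪ ↑C : Set Site) = ↑(N ∪ C) ∪ ∅ := by
    ext x
    simp only [Set.mem_union, Finset.mem_coe, Set.mem_empty_iff_false, or_false, Finset.mem_union]
  rw [e1, e2] at hfl
  have h1 := hNmin (N ∪ C) (Finset.mem_powerset.2 (Finset.union_subset hNL (hCP.trans hPL)))
  have h2 : P \ C ∈ gs R J h Λ (↑Λ)ᶜ := by
    unfold gs
    rw [Finset.mem_filter, Finset.mem_powerset]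
    refine ⟨Finset.sdiff_subset.trans hPL, fun S' hS' => ?_⟩
    have h6 := hPmin S' hS'
    linarith
  have h3 := hPu _ h2
  have h4 : z ∈ P \ C := by
    rw [h3]
    exact hCP hzC
  exact (Finset.mem_sdiff.1 h4).2 hzC

end Pool.Agent.H65.RFZ.CON1
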