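import Pool.Agent.H65.RFZ.GP

/-!
Row GA of the board rfz_modules: averaging over small shifts.
-/

set_option autoImplicit false

noncomputable section

open MeasureTheory ProbabilityTheory

namespace Pool.Agent.H65.RFZ.GA

open Pool.Agent.H98.RFC Pool.Agent.H98.RFZ Pool.Agent.H65.RFZ.GP

theorem shf_joint (V : Finset Site) :
    Measurable (fun p : ℝ × (Site → ℝ) => shf V p.1 p.2) := by
  classical
  rw [measurable_pi_iff]
  intro x
  unfold shf
  by_cases h : x ∈ V
  · simp only [h, if_true]
    fun_prop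
  · simp only [h, if_false]
    fun_prop

theorem den_joint (V : Finset Site) :
    Measurable (fun p : ℝ × (Site → ℝ) => den V p.1 p.2) := by
  unfold den
  fun_prop

theorem avg (V : Finset Site) (a : ℝ) (ha : 0 < a) (η : Site → ℝ) :
    2 * a * Real.exp (-(a ^ 2 * (V.card : ℝ) / 2)) ≤ ∫ s in Set.Icc (-a) a, den V s η := by
  set S := ∑ x ∈ V, η x with hS
  have hc : Continuous fun s : ℝ => den V s η := by
    unfold den
    fun_prop
  have h1 : ∫ s in Set.Icc (-a) a, Real.exp (-(a ^ 2 * (V.card : ℝ) / 2)) * (1 + s * S) =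
      2 * a * Real.exp (-(a ^ 2 * (V.card : ℝ) / 2)) := by
    rw [integral_Icc_eq_integral_Ioc, ← intervalIntegral.integral_of_le (by linarith)]
    have h0 : ∫ s in (-a)..a, (1 + s * S) = (∫ _s in (-a)..a, (1 : ℝ)) + ∫ s in (-a)..a, s * S :=
      intervalIntegral.integral_add (f := fun _ => (1 : ℝ)) (g := fun s => s * S)
        (continuous_const.intervalIntegrable _ _)
        ((continuous_id.mul continuous_const).intervalIntegrable _ _)
    rw [intervalIntegral.integral_const_mul, h0,
      intervalIntegral.integral_const, intervalIntegral.integral_mul_const, integral_id]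
    simp only [smul_eq_mul]
    ring
  rw [← h1]
  refine setIntegral_mono_on ?_ ?_ measurableSet_Icc ?_
  · exact (Continuous.integrableOn_Icc (by fun_prop))
  · exact hc.integrableOn_Icc
  · intro s hs
    unfold den
    have h2 : Real.exp (s * ∑ x ∈ V, η x - s ^ 2 * (V.card : ℝ) / 2) =
        Real.exp (-(s ^ 2 * (V.card : ℝ) / 2)) * Real.exp (s * S) := by
      rw [← Real.exp_add, ← hS]
      congr 1
      ring
    rw [h2]
    have h3 : Real.exp (-(a ^ 2 * (V.card : ℝ) / 2)) ≤ Real.exp (-(s ^ 2 * (V.card : ℝ) / 2)) := by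
      refine Real.exp_le_exp.2 ?_
      have h4 : s ^ 2 ≤ a ^ 2 := sq_le_sq' hs.1 hs.2
      have h5 : s ^ 2 * (V.card : ℝ) ≤ a ^ 2 * (V.card : ℝ) :=
        mul_le_mul_of_nonneg_right h4 (Nat.cast_nonneg _)
      linarith
    calc Real.exp (-(a ^ 2 * (V.card : ℝ) / 2)) * (1 + s * S) ≤
          Real.exp (-(a ^ 2 * (V.card : ℝ) / 2)) * Real.exp (s * S) := by
          refine mul_le_mul_of_nonneg_left ?_ (Real.exp_pos _).le
          have := Real.add_one_le_exp (s * S)
          linarith
      _ ≤ Real.exp (-(s ^ 2 * (V.card : ℝ) / 2)) * Real.exp (s * S) :=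
          mul_le_mul_of_nonneg_right h3 (Real.exp_pos _).le

theorem pf_GA (hCM : Z_CM) : Z_GA := by
  classical
  intro V a ha f hf hf0 hfb
  obtain ⟨C, hC⟩ := hfb
  have := gam_prob
  have hfin : IsFiniteMeasure (volume.restrict (Set.Icc (-a) a)) := by
    constructor
    rw [Measure.restrict_apply_univ, Real.volume_Icc]
    exact ENNReal.ofReal_lt_top
  have hfbd : ∀ η, ‖f η‖ ≤ C := by
    intro η
    rw [Real.norm_eq_abs, abs_of_nonneg (hf0 η)]
    exact hC η
  -- the shifted function on the product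
  have hI1 : Integrable (fun p : ℝ × (Site → ℝ) => f (shf V p.1 p.2))
      ((volume.restrict (Set.Icc (-a) a)).prod gam) := by
    refine Integrable.of_bound ((hf.comp (shf_joint V)).aestronglyMeasurable) C ?_
    exact Filter.Eventually.of_forall fun p => hfbd _
  have hCM' : ∀ s : ℝ, ∫ η, f (shf V s η) ∂gam = ∫ η, f η * den V s η ∂gam := by
    intro s
    exact hCM V s f hf ⟨C, fun η => by rw [← Real.norm_eq_abs]; exact hfbd η⟩
  have hIs : ∀ s : ℝ, Integrable (fun η => f η * den V s η) gam := by
    intro s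
    exact (den_integrable hCM V s).bdd_mul hf.aestronglyMeasurable (Filter.Eventually.of_forall hfbd)
  have hI2 : Integrable (fun p : ℝ × (Site → ℝ) => f p.2 * den V p.1 p.2)
      ((volume.restrict (Set.Icc (-a) a)).prod gam) := by
    rw [integrable_prod_iff]
    · refine ⟨Filter.Eventually.of_forall hIs, ?_⟩
      have h1 : (fun s : ℝ => ∫ η, ‖f η * den V s η‖ ∂gam) =
          fun s : ℝ => ∫ η, f (shf V s η) ∂gam := by
        funext s
        rw [hCM' s]
        refine integral_congr_ae (Filter.Eventually.of_forall fun η => ?_)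
        simp only
        rw [Real.norm_eq_abs, abs_of_nonneg (mul_nonneg (hf0 η) (den_pos V s η).le)]
      simp only [h1]
      exact hI1.integral_prod_left
    · exact ((hf.comp measurable_snd).mul (den_joint V)).aestronglyMeasurable
  have hswap : ∫ η, (∫ s in Set.Icc (-a) a, f (shf V s η)) ∂gam =
      ∫ η, (∫ s in Set.Icc (-a) a, f η * den V s η) ∂gam := by
    rw [← integral_integral_swap (f := fun s η => f (shf V s η)) hI1,
      ← integral_integral_swap (f := fun s η => f η * den V s η) hI2]
    refine integral_congr_ae (Filter.Eventually.of_forall fun s => ?_)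
    exact hCM' s
  rw [hswap]
  have hIo : Integrable (fun η => ∫ s in Set.Icc (-a) a, f η * den V s η) gam :=
    hI2.integral_prod_right
  have hIf : Integrable f gam :=
    Integrable.of_bound hf.aestronglyMeasurable C (Filter.Eventually.of_forall hfbd)
  have hE : 0 < Real.exp (a ^ 2 * (V.card : ℝ) / 2) := Real.exp_pos _
  have h2 : (2 * a * Real.exp (-(a ^ 2 * (V.card : ℝ) / 2))) * ∫ η, f η ∂gam ≤
      ∫ η, (∫ s in Set.Icc (-a) a, f η * den V s η) ∂gam := by
    rw [← integral_const_mul]
    refine integral_mono (hIf.const_mul _) hIo fun η => ?_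
    simp only
    rw [integral_const_mul, mul_comm]
    exact mul_le_mul_of_nonneg_left (avg V a ha η) (hf0 η)
  have h3 : Real.exp (a ^ 2 * (V.card : ℝ) / 2) * Real.exp (-(a ^ 2 * (V.card : ℝ) / 2)) = 1 := by
    rw [← Real.exp_add, add_neg_cancel, Real.exp_zero]
  calc ∫ η, f η ∂gam = Real.exp (a ^ 2 * (V.card : ℝ) / 2) * (1 / (2 * a)) *
        ((2 * a * Real.exp (-(a ^ 2 * (V.card : ℝ) / 2))) * ∫ η, f η ∂gam) := by
        have h4 : Real.exp (a ^ 2 * (V.card : ℝ) / 2) * (1 / (2 * a)) *
            ((2 * a * Real.exp (-(a ^ 2 * (V.card : ℝ) / 2))) * ∫ η, f η ∂gam) =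
            (Real.exp (a ^ 2 * (V.card : ℝ) / 2) * Real.exp (-(a ^ 2 * (V.card : ℝ) / 2))) *
              ((2 * a) * (1 / (2 * a))) * ∫ η, f η ∂gam := by ring
        rw [h4, h3, mul_one_div_cancel (by linarith : (2 * a : ℝ) ≠ 0)]
        ring
    _ ≤ _ := mul_le_mul_of_nonneg_left h2 (mul_nonneg hE.le (by positivity))

end Pool.Agent.H65.RFZ.GA
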