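import Pool.Agent.H98.RFZ.Targets

/-!
Rows GP and GL of the board rfz_modules: probabilities of shifted events.
-/

set_option autoImplicit false

noncomputable section

open MeasureTheory ProbabilityTheory

namespace Pool.Agent.H65.RFZ.GP

open Pool.Agent.H98.RFC Pool.Agent.H98.RFZ

theorem gam_prob : IsProbabilityMeasure gam := by
  unfold gam
  infer_instance

/-- The density. -/
def den (V : Finset Site) (s : ℝ) (η : Site → ℝ) : ℝ :=
  Real.exp (s * ∑ x ∈ V, η x - s ^ 2 * (V.card : ℝ) / 2)

theorem den_meas (V : Finset Site) (s : ℝ) : Measurable (den V s) := by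
  unfold den
  fun_prop

theorem den_pos (V : Finset Site) (s : ℝ) (η : Site → ℝ) : 0 < den V s η := Real.exp_pos _

theorem den_int (hCM : Z_CM) (V : Finset Site) (s : ℝ) : ∫ η, den V s η ∂gam = 1 := by
  have := gam_prob
  have h := hCM V s (fun _ => 1) measurable_const ⟨1, fun _ => by simp⟩
  simp only [one_mul, integral_const, probReal_univ, smul_eq_mul, mul_one] at h
  exact h.symm

theorem den_integrable (hCM : Z_CM) (V : Finset Site) (s : ℝ) : Integrable (den V s) gam :=
  Integrable.of_integral_ne_zero (by rw [den_int hCM]; exact one_ne_zero)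

theorem den_sq (V : Finset Site) (s : ℝ) (η : Site → ℝ) :
    den V s η ^ 2 = Real.exp (s ^ 2 * (V.card : ℝ)) * den V (2 * s) η := by
  unfold den
  rw [← Real.exp_nat_mul, ← Real.exp_add]
  congr 1
  push_cast
  ring

theorem pf_GP (hCM : Z_CM) : Z_GP := by
  classical
  intro V s A hA
  have := gam_prob
  have hsh : Measurable (shf V s) := by
    rw [measurable_pi_iff]
    intro x
    unfold shf
    fun_prop
  -- the probability as an integral
  have h1 : (gam {η | shf V s η ∈ A}).toReal =
      ∫ η, A.indicator (fun _ => (1 : ℝ)) η * den V s η ∂gam := by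
    have h := hCM V s (A.indicator fun _ => (1 : ℝ)) (measurable_const.indicator hA)
      ⟨1, fun η => by by_cases hη : η ∈ A <;> simp [hη]⟩
    have h2 : ∫ η, A.indicator (fun _ => (1 : ℝ)) (shf V s η) ∂gam =
        (gam {η | shf V s η ∈ A}).toReal := by
      have h3 : (fun η => A.indicator (fun _ => (1 : ℝ)) (shf V s η)) =
          {η | shf V s η ∈ A}.indicator (fun _ => (1 : ℝ)) := by
        funext η
        by_cases hη : shf V s η ∈ A
        · rw [Set.indicator_of_mem hη, Set.indicator_of_mem (by exact hη)]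
        · rw [Set.indicator_of_notMem hη, Set.indicator_of_notMem (by exact hη)]
      have hmm : MeasurableSet {η | shf V s η ∈ A} := hsh hA
      rw [h3, integral_indicator hmm]
      simp [Measure.real]
    rw [← h2]
    exact h
  -- Cauchy Schwarz with a parameter
  have hP : ∫ η, A.indicator (fun _ => (1 : ℝ)) η ∂gam = (gam A).toReal := by
    rw [integral_indicator hA]
    simp [Measure.real]
  have hIA : Integrable (A.indicator fun _ => (1 : ℝ)) gam :=
    (integrable_const 1).indicator hA
  have hI2 : Integrable (fun η => den V s η ^ 2) gam := by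
    simp only [den_sq]
    exact (den_integrable hCM V (2 * s)).const_mul _
  have hE2 : ∫ η, den V s η ^ 2 ∂gam = Real.exp (s ^ 2 * (V.card : ℝ)) := by
    simp only [den_sq]
    rw [integral_const_mul, den_int hCM, mul_one]
  have hIAd : Integrable (fun η => A.indicator (fun _ => (1 : ℝ)) η * den V s η) gam := by
    have h3 : (fun η => A.indicator (fun _ => (1 : ℝ)) η * den V s η) =
        A.indicator (den V s) := by
      funext η
      by_cases hη : η ∈ A <;> simp [hη]
    rw [h3]
    exact (den_integrable hCM V s).indicator hA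
  have key : ∀ l : ℝ, 0 < l → 2 * (gam {η | shf V s η ∈ A}).toReal ≤
      l * (gam A).toReal + l⁻¹ * Real.exp (s ^ 2 * (V.card : ℝ)) := by
    intro l hl
    rw [h1, ← hP, ← hE2, ← integral_const_mul, ← integral_const_mul, ← integral_const_mul,
      ← integral_add (hIA.const_mul _) (hI2.const_mul _)]
    refine integral_mono (hIAd.const_mul _) ((hIA.const_mul _).add (hI2.const_mul _)) fun η => ?_
    have h4 : A.indicator (fun _ => (1 : ℝ)) η = (A.indicator (fun _ => (1 : ℝ)) η) ^ 2 := by
      by_cases hη : η ∈ A <;> simp [hη]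
    have h5 : 0 ≤ l⁻¹ * (l * A.indicator (fun _ => (1 : ℝ)) η - den V s η) ^ 2 :=
      mul_nonneg (inv_nonneg.2 hl.le) (sq_nonneg _)
    have h6 : l⁻¹ * (l * A.indicator (fun _ => (1 : ℝ)) η - den V s η) ^ 2 =
        l * (A.indicator (fun _ => (1 : ℝ)) η) ^ 2 -
          2 * (A.indicator (fun _ => (1 : ℝ)) η * den V s η) + l⁻¹ * den V s η ^ 2 := by
      field_simp
      ring
    rw [← h4] at h6
    linarith
  -- optimize
  set P := (gam A).toReal with hPd
  have hP0 : 0 ≤ P := ENNReal.toReal_nonneg
  set E := Real.exp (s ^ 2 * (V.card : ℝ) / 2) with hE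
  have hE0 : 0 < E := Real.exp_pos _
  have hEE : Real.exp (s ^ 2 * (V.card : ℝ)) = E ^ 2 := by
    rw [hE, ← Real.exp_nat_mul]
    congr 1
    push_cast
    ring
  rw [hEE] at key
  rcases hP0.eq_or_lt with h0 | h0
  · rw [← h0, Real.sqrt_zero, mul_zero]
    by_contra hcon
    push Not at hcon
    have h7 := key (E ^ 2 / (gam {η | shf V s η ∈ A}).toReal)
      (div_pos (pow_pos hE0 2) hcon)
    rw [← h0, mul_zero, zero_add, inv_div, div_mul_cancel₀ _ (pow_pos hE0 2).ne'] at h7
    linarith
  · have hs : 0 < Real.sqrt P := Real.sqrt_pos.2 h0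
    have h7 := key (E / Real.sqrt P) (div_pos hE0 hs)
    have h8 : E / Real.sqrt P * P = E * Real.sqrt P := by
      rw [div_mul_eq_mul_div, div_eq_iff hs.ne', mul_assoc, Real.mul_self_sqrt h0.le]
    have h9 : (E / Real.sqrt P)⁻¹ * E ^ 2 = E * Real.sqrt P := by
      rw [inv_div]
      field_simp
    rw [h8, h9] at h7
    linarith

theorem pf_GL (hGP : Z_GP) : Z_GL := by
  classical
  intro V Y s A hA hd
  have := gam_prob
  have hsh : ∀ (V : Finset Site) (s : ℝ), Measurable (shf V s) := by
    intro V s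
    rw [measurable_pi_iff]
    intro x
    unfold shf
    fun_prop
  -- only the shift in `Y` matters
  have h1 : {η | shf V s η ∈ A} = {η | shf (V ∩ Y) s η ∈ A} := by
    have hag : ∀ η : Site → ℝ, ∀ x ∈ Y, shf V s η x = shf (V ∩ Y) s η x := by
      intro η x hx
      unfold shf
      by_cases h : x ∈ V <;> simp [h, hx]
    ext η
    exact ⟨fun h => hd _ _ (hag η) h, fun h => hd _ _ (fun x hx => (hag η x hx).symm) h⟩
  have hA' : MeasurableSet {η | shf (V ∩ Y) s η ∈ A} := hsh _ _ hA
  have h2 := hGP (V ∩ Y) (-s) {η | shf (V ∩ Y) s η ∈ A} hA'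
  have h3 : {η | shf (V ∩ Y) (-s) η ∈ {η | shf (V ∩ Y) s η ∈ A}} = A := by
    ext η
    have h4 : shf (V ∩ Y) s (shf (V ∩ Y) (-s) η) = η := by
      funext x
      unfold shf
      by_cases h : x ∈ V ∩ Y
      · simp only [h, if_true]
        ring
      · simp only [h, if_false]
        ring
    show shf (V ∩ Y) s (shf (V ∩ Y) (-s) η) ∈ A ↔ η ∈ A
    rw [h4]
  rw [h3] at h2
  rw [h1]
  set P := (gam {η | shf (V ∩ Y) s η ∈ A}).toReal with hP
  have hP0 : 0 ≤ P := ENNReal.toReal_nonneg
  have hA0 : 0 ≤ (gam A).toReal := ENNReal.toReal_nonneg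
  calc (gam A).toReal ^ 2 ≤
        (Real.exp ((-s) ^ 2 * ((V ∩ Y).card : ℝ) / 2) * Real.sqrt P) ^ 2 :=
        pow_le_pow_left₀ hA0 h2 2
    _ = Real.exp (s ^ 2 * ((V ∩ Y).card : ℝ)) * P := by
        rw [mul_pow, Real.sq_sqrt hP0, ← Real.exp_nat_mul]
        congr 2
        push_cast
        ring
    _ ≤ Real.exp (s ^ 2 * (Y.card : ℝ)) * P := by
        refine mul_le_mul_of_nonneg_right (Real.exp_le_exp.2 ?_) hP0
        refine mul_le_mul_of_nonneg_left ?_ (sq_nonneg _)
        exact_mod_cast Finset.card_le_card Finset.inter_subset_right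

end Pool.Agent.H65.RFZ.GP
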