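import Pool.Agent.H98.RFZ.Targets
import Pool.Agent.H65.RFC.PRO

/-!
Row IND of the board rfz_modules: independence of events that depend on disjoint sets of sites.
-/

set_option autoImplicit false

noncomputable section

open MeasureTheory ProbabilityTheory

namespace Pool.Agent.H65.RFZ

open Pool.Agent.H98.RFC Pool.Agent.H98.RFZ Pool.Agent.H65.RFC.PRO

theorem ind_finset {ι : Type} [DecidableEq ι] (Y : ι → Finset Site) (A : ι → Set (Site → ℝ))
    (hY : ∀ i j, i ≠ j → Disjoint (Y i) (Y j)) (hA : ∀ i, MeasurableSet (A i))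
    (hd : ∀ i, ∀ η η' : Site → ℝ, (∀ x ∈ Y i, η x = η' x) → η ∈ A i → η' ∈ A i)
    (s : Finset ι) : gam (⋂ i ∈ s, A i) = ∏ i ∈ s, gam (A i) := by
  classical
  have := gam_prob
  induction s using Finset.induction_on with
  | empty => simp
  | insert k s hk ih =>
    rw [Finset.prod_insert hk, ← ih, Finset.set_biInter_insert]
    have hmB : MeasurableSet (⋂ i ∈ s, A i) := Finset.measurableSet_biInter s fun i _ => hA i
    have hI : ∀ (B : Set (Site → ℝ)), MeasurableSet B →
        Measurable (B.indicator (fun _ => (1 : ℝ))) := fun B hB => measurable_const.indicator hB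
    have hdep : ∀ (B : Set (Site → ℝ)) (T : Finset Site),
        (∀ η η' : Site → ℝ, (∀ x ∈ T, η x = η' x) → η ∈ B → η' ∈ B) →
        ∀ η η' : Site → ℝ, (∀ x ∈ T, η x = η' x) →
          B.indicator (fun _ => (1 : ℝ)) η = B.indicator (fun _ => (1 : ℝ)) η' := by
      intro B T h η η' hh
      by_cases h1 : η ∈ B
      · rw [Set.indicator_of_mem h1, Set.indicator_of_mem (h η η' hh h1)]
      · have h2 : η' ∉ B := fun h2 => h1 (h η' η (fun x hx => (hh x hx).symm) h2)
        rw [Set.indicator_of_notMem h1, Set.indicator_of_notMem h2]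
    have h1 := indep2 (Y k) (s.biUnion Y) (by
        rw [Finset.disjoint_biUnion_right]
        intro i hi
        refine hY k i ?_
        rintro rfl
        exact hk hi) _ _ (hI (A k) (hA k)) (hI (⋂ i ∈ s, A i) hmB) (hdep _ _ (hd k))
      (hdep _ _ (by
        intro η η' hh hη
        rw [Set.mem_iInter₂] at hη ⊢
        intro i hi
        exact hd i η η' (fun x hx => hh x (Finset.mem_biUnion.2 ⟨i, hi, hx⟩)) (hη i hi)))
    have h2 := h1.measure_inter_preimage_eq_mul {1} {1} (measurableSet_singleton _)
      (measurableSet_singleton _)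
    have h3 : ∀ B : Set (Site → ℝ), B.indicator (fun _ => (1 : ℝ)) ⁻¹' {1} = B := by
      intro B
      ext η
      by_cases h : η ∈ B <;> simp [h]
    rwa [h3, h3] at h2

theorem pf_IND : Z_IND := by
  intro n Y A hY hA hd
  have h := ind_finset Y A hY hA hd Finset.univ
  simpa using h

end Pool.Agent.H65.RFZ
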