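import Pool.Agent.H98.RFZ.Targets

/-!
Row LOB of the board rfz_modules: only the boundary sites joined to the domain by a bond matter.
-/

set_option autoImplicit false

noncomputable section

namespace Pool.Agent.H65.RFZ

open Pool.Agent.H98.RFC Pool.Agent.H98.RFZ

theorem pf_LOB : Z_LOB := by
  classical
  intro R J hJ h W B B' hB hB' hbd
  have hin : ∀ (S : Finset Site), S ⊆ W → ∀ x ∈ W, sg (↑S ∪ B) x = sg (↑S ∪ B') x := by
    intro S _ x hx
    have h1 : x ∉ B := fun hx' => Set.disjoint_left.1 hB hx' hx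
    have h2 : x ∉ B' := fun hx' => Set.disjoint_left.1 hB' hx' hx
    unfold sg
    by_cases h3 : x ∈ S <;> simp [h1, h2, h3]
  have hout : ∀ (S : Finset Site), S ⊆ W → ∀ a ∈ W, ∀ b, b ∉ W → 0 < J (a - b) →
      sg (↑S ∪ B) b = sg (↑S ∪ B') b := by
    intro S hS a ha b hb hab
    have h1 := hbd a ha b hb hab
    have h3 : b ∉ S := fun h3 => hb (hS h3)
    unfold sg
    by_cases h4 : b ∈ B
    · simp [h3, h4, h1.1 h4]
    · have h5 : b ∉ B' := fun h5 => h4 (h1.2 h5)
      simp [h3, h4, h5]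
  have hen : ∀ S ∈ W.powerset, en R J h W (↑S ∪ B) = en R J h W (↑S ∪ B') := by
    intro S hS
    have hS' : S ⊆ W := Finset.mem_powerset.1 hS
    unfold en
    have h1 : ∑ p ∈ prs R W, J (p.1 - p.2) * sg (↑S ∪ B) p.1 * sg (↑S ∪ B) p.2 =
        ∑ p ∈ prs R W, J (p.1 - p.2) * sg (↑S ∪ B') p.1 * sg (↑S ∪ B') p.2 := by
      refine Finset.sum_congr rfl fun p hp => ?_
      have hp2 : p.1 ∈ W ∨ p.2 ∈ W := by
        unfold prs at hp
        exact (Finset.mem_filter.1 hp).2.1
      by_cases ha : p.1 ∈ W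
      · rw [hin S hS' _ ha]
        by_cases hb : p.2 ∈ W
        · rw [hin S hS' _ hb]
        · rcases (hJ.nonneg (p.1 - p.2)).eq_or_lt with h0 | h0
          · rw [← h0]
            ring
          · rw [hout S hS' _ ha _ hb h0]
      · have hb : p.2 ∈ W := hp2.resolve_left ha
        rw [hin S hS' _ hb]
        rcases (hJ.nonneg (p.1 - p.2)).eq_or_lt with h0 | h0
        · rw [← h0]
          ring
        · have h2 : 0 < J (p.2 - p.1) := by
            have h3 := hJ.even (p.1 - p.2)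
            rw [neg_sub] at h3
            rw [h3]
            exact h0
          rw [hout S hS' _ hb _ ha h2]
    have h2 : ∑ x ∈ W, h x * sg (↑S ∪ B) x = ∑ x ∈ W, h x * sg (↑S ∪ B') x :=
      Finset.sum_congr rfl fun x hx => by rw [hin S hS' x hx]
    rw [h1, h2]
  unfold gs
  ext S
  simp only [Finset.mem_filter]
  constructor
  · rintro ⟨h1, h2⟩
    refine ⟨h1, fun S' hS' => ?_⟩
    rw [← hen S h1, ← hen S' hS']
    exact h2 S' hS'
  · rintro ⟨h1, h2⟩
    refine ⟨h1, fun S' hS' => ?_⟩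
    rw [hen S h1, hen S' hS']
    exact h2 S' hS'

end Pool.Agent.H65.RFZ
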