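import Pool.Agent.H98.RFZ.Targets3

/-!
Rows QCHB and QTYP of the board rfz_modules: the inequality of Chebyshev, quantiles.
-/

set_option autoImplicit false

noncomputable section

open MeasureTheory ProbabilityTheory Filter Topology

namespace Pool.Agent.H65.RFZ.QCHB

open Pool.Agent.H98.RFC Pool.Agent.H98.RFZ

theorem pf_QCHB : Q_CHB := by
  classical
  intro Ω _ P _ I A p hA hp hpA hind
  rcases I.eq_empty_or_nonempty with rfl | hI
  · have h1 : {ω | ∃ S : Finset Site, S ⊆ (∅ : Finset Site) ∧ (∀ y ∈ S, ω ∈ A y) ∧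
        p * ((∅ : Finset Site).card : ℝ) / 2 ≤ (S.card : ℝ)} = (Set.univ : Set Ω) := by
      ext ω
      simp only [Set.mem_ofPred_eq, Set.mem_univ, iff_true]
      exact ⟨∅, by simp, by simp, by simp⟩
    rw [h1]
    simp
  -- indicators
  let f : Site → Ω → ℝ := fun y => (A y).indicator (fun _ => (1 : ℝ))
  let q : Site → ℝ := fun y => (P (A y)).toReal
  have hfm : ∀ y ∈ I, Measurable (f y) := fun y hy => measurable_const.indicator (hA y hy)
  have hfi : ∀ y ∈ I, Integrable (f y) P := fun y hy => (integrable_const 1).indicator (hA y hy)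
  have hfI : ∀ y ∈ I, ∫ ω, f y ω ∂P = q y := by
    intro y hy
    simp only [f, q]
    rw [integral_indicator (hA y hy)]
    simp [Measure.real]
  have hff : ∀ y y', (fun ω => f y ω * f y' ω) = (A y ∩ A y').indicator (fun _ => (1 : ℝ)) := by
    intro y y'
    funext ω
    by_cases h1 : ω ∈ A y <;> by_cases h2 : ω ∈ A y' <;> simp [f, h1, h2]
  have hffi : ∀ y ∈ I, ∀ y' ∈ I, Integrable (fun ω => f y ω * f y' ω) P := by
    intro y hy y' hy'
    rw [hff]
    exact (integrable_const 1).indicator ((hA y hy).inter (hA y' hy'))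
  have hffI : ∀ y ∈ I, ∀ y' ∈ I, ∫ ω, f y ω * f y' ω ∂P = (P (A y ∩ A y')).toReal := by
    intro y hy y' hy'
    rw [hff, integral_indicator ((hA y hy).inter (hA y' hy'))]
    simp [Measure.real]
  have hcov : ∀ y ∈ I, ∀ y' ∈ I, ∫ ω, (f y ω - q y) * (f y' ω - q y') ∂P =
      (P (A y ∩ A y')).toReal - q y * q y' := by
    intro y hy y' hy'
    have h1 : (fun ω => (f y ω - q y) * (f y' ω - q y')) =
        fun ω => (f y ω * f y' ω - q y' * f y ω) - (q y * f y' ω - q y * q y') := by
      funext ω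
      ring
    have e1 : ∫ ω, ((f y ω * f y' ω - q y' * f y ω) - (q y * f y' ω - q y * q y')) ∂P =
        ∫ ω, (f y ω * f y' ω - q y' * f y ω) ∂P - ∫ ω, (q y * f y' ω - q y * q y') ∂P :=
      integral_sub ((hffi y hy y' hy').sub ((hfi y hy).const_mul _))
        (((hfi y' hy').const_mul _).sub (integrable_const _))
    have e2 : ∫ ω, (f y ω * f y' ω - q y' * f y ω) ∂P =
        ∫ ω, f y ω * f y' ω ∂P - ∫ ω, q y' * f y ω ∂P :=
      integral_sub (hffi y hy y' hy') ((hfi y hy).const_mul _)
    have e3 : ∫ ω, (q y * f y' ω - q y * q y') ∂P =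
        ∫ ω, q y * f y' ω ∂P - ∫ _ω, q y * q y' ∂P :=
      integral_sub ((hfi y' hy').const_mul _) (integrable_const _)
    rw [h1, e1, e2, e3,
      integral_const_mul, integral_const_mul, hfI y hy, hfI y' hy', hffI y hy y' hy']
    simp only [integral_const, probReal_univ, smul_eq_mul, one_mul]
    ring
  have hcovi : ∀ y ∈ I, ∀ y' ∈ I, Integrable (fun ω => (f y ω - q y) * (f y' ω - q y')) P := by
    intro y hy y' hy'
    have h1 : (fun ω => (f y ω - q y) * (f y' ω - q y')) =
        fun ω => (f y ω * f y' ω - q y' * f y ω) - (q y * f y' ω - q y * q y') := by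
      funext ω
      ring
    rw [h1]
    exact ((hffi y hy y' hy').sub ((hfi y hy).const_mul _)).sub
      (((hfi y' hy').const_mul _).sub (integrable_const _))
  set m : ℝ := ∑ y ∈ I, q y with hm
  have hIc : (0 : ℝ) < (I.card : ℝ) := by exact_mod_cast Finset.card_pos.2 hI
  have hmp : p * (I.card : ℝ) ≤ m := by
    have h1 : ∑ _y ∈ I, p ≤ m := Finset.sum_le_sum hpA
    rw [Finset.sum_const, nsmul_eq_mul] at h1
    linarith
  have hm0 : 0 < m := lt_of_lt_of_le (mul_pos hp hIc) hmp
  have hsq : ∀ ω, (∑ y ∈ I, f y ω - m) ^ 2 =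
      ∑ y ∈ I, ∑ y' ∈ I, (f y ω - q y) * (f y' ω - q y') := by
    intro ω
    rw [hm, ← Finset.sum_sub_distrib, sq, Finset.sum_mul_sum]
  have hsqi : Integrable (fun ω => (∑ y ∈ I, f y ω - m) ^ 2) P := by
    simp only [hsq]
    exact integrable_finsetSum _ fun y hy => integrable_finsetSum _ fun y' hy' =>
      hcovi y hy y' hy'
  have hvar : ∫ ω, (∑ y ∈ I, f y ω - m) ^ 2 ∂P ≤ m := by
    simp only [hsq]
    rw [integral_finsetSum _ fun y hy => integrable_finsetSum _ fun y' hy' => hcovi y hy y' hy']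
    rw [hm]
    refine Finset.sum_le_sum fun y hy => ?_
    rw [integral_finsetSum _ fun y' hy' => hcovi y hy y' hy',
      Finset.sum_eq_single_of_mem y hy ?_]
    · rw [hcov y hy y hy, Set.inter_self]
      have : 0 ≤ q y * q y := mul_self_nonneg _
      simp only [q] at this ⊢
      linarith
    · intro y' hy' hne
      rw [hcov y hy y' hy', hind y hy y' hy' (Ne.symm hne), ENNReal.toReal_mul]
      simp only [q]
      ring
  -- the bad event
  set B : Set Ω := {ω | ∑ y ∈ I, f y ω < p * (I.card : ℝ) / 2} with hB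
  have hBm : MeasurableSet B :=
    measurableSet_lt (Finset.measurable_sum I fun y hy => hfm y hy) measurable_const
  have hmark : (P B).toReal * (m / 2) ^ 2 ≤ m := by
    refine le_trans ?_ hvar
    have h1 : (P B).toReal * (m / 2) ^ 2 = ∫ ω, B.indicator (fun _ => (m / 2) ^ 2) ω ∂P := by
      rw [integral_indicator hBm]
      simp [Measure.real]
    rw [h1]
    refine integral_mono ((integrable_const _).indicator hBm) hsqi fun ω => ?_
    by_cases hω : ω ∈ B
    · rw [Set.indicator_of_mem hω]
      rw [hB, Set.mem_ofPred_eq] at hω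
      have h2 : m / 2 ≤ m - ∑ y ∈ I, f y ω := by linarith
      have h3 : (∑ y ∈ I, f y ω - m) ^ 2 = (m - ∑ y ∈ I, f y ω) ^ 2 := by ring
      rw [h3]
      exact pow_le_pow_left₀ (by linarith) h2 2
    · rw [Set.indicator_of_notMem hω]
      positivity
  have hPB : (P B).toReal ≤ 4 / (p * (I.card : ℝ)) := by
    have h1 : (P B).toReal ≤ 4 / m := by
      rw [le_div_iff₀ hm0]
      have h2 : (P B).toReal * m * m ≤ 4 * m := by nlinarith
      exact le_of_mul_le_mul_right h2 hm0
    exact h1.trans (div_le_div_of_nonneg_left (by norm_num) (mul_pos hp hIc) hmp)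
  -- the good event contains the complement
  have hsub : Bᶜ ⊆ {ω | ∃ S : Finset Site, S ⊆ I ∧ (∀ y ∈ S, ω ∈ A y) ∧
      p * (I.card : ℝ) / 2 ≤ (S.card : ℝ)} := by
    intro ω hω
    rw [hB, Set.mem_compl_iff, Set.mem_ofPred_eq, not_lt] at hω
    refine ⟨I.filter (fun y => ω ∈ A y), Finset.filter_subset _ _,
      fun y hy => (Finset.mem_filter.1 hy).2, hω.trans (le_of_eq ?_)⟩
    simp only [f, Set.indicator_apply]
    rw [Finset.sum_ite, Finset.sum_const_zero, add_zero, Finset.sum_const, nsmul_eq_mul, mul_one]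
  have h1 : (P Bᶜ).toReal = 1 - (P B).toReal := by
    have := probReal_compl_eq_one_sub (μ := P) hBm
    exact this
  have h2 := ENNReal.toReal_mono (measure_ne_top P _) (measure_mono hsub)
  show 1 - 4 / (p * (I.card : ℝ)) ≤ _
  linarith

theorem gam_prob : IsProbabilityMeasure gam := by
  unfold gam
  infer_instance

theorem pf_QTYP : Q_TYP := by
  intro f hf hf0 δ hδ0 hδ1
  have := gam_prob
  let F : ℝ → ℝ := fun c => (gam {η | c < f η}).toReal
  have hms : ∀ c, MeasurableSet {η | c < f η} := fun c => measurableSet_lt measurable_const hf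
  have hanti : ∀ c c', c ≤ c' → F c' ≤ F c := by
    intro c c' h
    exact ENNReal.toReal_mono (measure_ne_top _ _) (measure_mono fun η hη => lt_of_le_of_lt h hη)
  let S : Set ℝ := {c | 0 ≤ c ∧ F c ≤ δ}
  have hSb : BddBelow S := ⟨0, fun c hc => hc.1⟩
  have hSn : S.Nonempty := by
    have h1 : Tendsto (fun n : ℕ => gam {η | (n : ℝ) < f η}) atTop
        (𝓝 (gam (⋂ n : ℕ, {η | (n : ℝ) < f η}))) := by
      refine tendsto_measure_iInter_atTop (fun n => (hms _).nullMeasurableSet) ?_
        ⟨0, measure_ne_top _ _⟩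
      intro m n hmn η hη
      have h2 : (m : ℝ) ≤ n := by exact_mod_cast hmn
      exact lt_of_le_of_lt h2 hη
    have h2 : (⋂ n : ℕ, {η | (n : ℝ) < f η}) = ∅ := by
      ext η
      simp only [Set.mem_iInter, Set.mem_ofPred_eq, Set.mem_empty_iff_false, iff_false, not_forall,
        not_lt]
      exact exists_nat_ge (f η)
    rw [h2, measure_empty] at h1
    have h3 := (ENNReal.tendsto_toReal ENNReal.zero_ne_top).comp h1
    rw [ENNReal.toReal_zero] at h3
    obtain ⟨n, hn⟩ := (h3.eventually_lt_const hδ0).exists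
    exact ⟨n, Nat.cast_nonneg n, hn.le⟩
  refine ⟨sInf S, le_csInf hSn fun c hc => hc.1, ?_, ?_⟩
  · -- right continuity
    have h1 : Tendsto (fun n : ℕ => gam {η | sInf S + 1 / ((n : ℝ) + 1) < f η}) atTop
        (𝓝 (gam (⋃ n : ℕ, {η | sInf S + 1 / ((n : ℝ) + 1) < f η}))) := by
      refine tendsto_measure_iUnion_atTop ?_
      intro m n hmn η hη
      have hη' : sInf S + 1 / ((m : ℝ) + 1) < f η := hη
      show sInf S + 1 / ((n : ℝ) + 1) < f η
      have h2 := one_div_le_one_div_of_le (by positivity : (0 : ℝ) < (m : ℝ) + 1)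
        (by exact_mod_cast Nat.succ_le_succ hmn : (m : ℝ) + 1 ≤ (n : ℝ) + 1)
      linarith
    have h2 : (⋃ n : ℕ, {η | sInf S + 1 / ((n : ℝ) + 1) < f η}) = {η | sInf S < f η} := by
      ext η
      simp only [Set.mem_iUnion, Set.mem_ofPred_eq]
      constructor
      · rintro ⟨n, hn⟩
        have : (0 : ℝ) < 1 / ((n : ℝ) + 1) := by positivity
        linarith
      · intro h
        obtain ⟨n, hn⟩ := exists_nat_one_div_lt (sub_pos.2 h)
        exact ⟨n, by linarith⟩
    rw [h2] at h1
    have h3 := (ENNReal.tendsto_toReal (measure_ne_top gam _)).comp h1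
    refine le_of_tendsto h3 (Eventually.of_forall fun n => ?_)
    have h4 : sInf S < sInf S + 1 / ((n : ℝ) + 1) := by
      have : (0 : ℝ) < 1 / ((n : ℝ) + 1) := by positivity
      linarith
    obtain ⟨c, hc, hlt⟩ := exists_lt_of_csInf_lt hSn h4
    exact (hanti _ _ hlt.le).trans hc.2
  · rcases (le_csInf hSn fun c hc => hc.1 : (0 : ℝ) ≤ sInf S).eq_or_lt with h0 | h0
    · rw [← h0]
      have h1 : {η | (0 : ℝ) ≤ f η} = Set.univ := by
        ext η
        simp [hf0 η]
      rw [h1, measure_univ, ENNReal.toReal_one]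
      exact hδ1.le
    · have h1 : Tendsto (fun n : ℕ => gam {η | sInf S - 1 / ((n : ℝ) + 1) < f η}) atTop
          (𝓝 (gam (⋂ n : ℕ, {η | sInf S - 1 / ((n : ℝ) + 1) < f η}))) := by
        refine tendsto_measure_iInter_atTop (fun n => (hms _).nullMeasurableSet) ?_
          ⟨0, measure_ne_top _ _⟩
        intro m n hmn η hη
        have hη' : sInf S - 1 / ((n : ℝ) + 1) < f η := hη
        show sInf S - 1 / ((m : ℝ) + 1) < f η
        have h2 := one_div_le_one_div_of_le (by positivity : (0 : ℝ) < (m : ℝ) + 1)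
          (by exact_mod_cast Nat.succ_le_succ hmn : (m : ℝ) + 1 ≤ (n : ℝ) + 1)
        linarith
      have h2 : (⋂ n : ℕ, {η | sInf S - 1 / ((n : ℝ) + 1) < f η}) = {η | sInf S ≤ f η} := by
        ext η
        simp only [Set.mem_iInter, Set.mem_ofPred_eq]
        constructor
        · intro h
          by_contra hcon
          push Not at hcon
          obtain ⟨n, hn⟩ := exists_nat_one_div_lt (sub_pos.2 hcon)
          have := h n
          linarith
        · intro h n
          have : (0 : ℝ) < 1 / ((n : ℝ) + 1) := by positivity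
          linarith
      rw [h2] at h1
      have h3 := (ENNReal.tendsto_toReal (measure_ne_top gam _)).comp h1
      obtain ⟨n₀, hn₀⟩ := exists_nat_one_div_lt h0
      refine ge_of_tendsto h3 ((eventually_ge_atTop n₀).mono fun n hn => ?_)
      have h4 : 1 / ((n : ℝ) + 1) ≤ 1 / ((n₀ : ℝ) + 1) :=
        one_div_le_one_div_of_le (by positivity) (by exact_mod_cast Nat.succ_le_succ hn)
      have h5 : sInf S - 1 / ((n : ℝ) + 1) ∉ S := by
        intro h5
        have h6 := csInf_le hSb h5
        have : (0 : ℝ) < 1 / ((n : ℝ) + 1) := by positivity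
        linarith
      by_contra hcon
      push Not at hcon
      exact h5 ⟨by linarith, hcon.le⟩

end Pool.Agent.H65.RFZ.QCHB
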