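import Pool.Agent.H65.RFZ.QLAY

/-!
Row QLOW of the board rfz_modules: lower bound for the disagreement set under a shift.
-/

set_option autoImplicit false

noncomputable section

open MeasureTheory ProbabilityTheory

namespace Pool.Agent.H65.RFZ.QLOW

open Pool.Agent.H98.RFC Pool.Agent.H98.RFZ Pool.Agent.H65.RFZ.QUPG Pool.Agent.H65.RFZ.QLAY

theorem gam_prob : IsProbabilityMeasure gam := by
  unfold gam
  infer_instance

theorem shf_meas (V : Finset Site) (s : ℝ) : Measurable (shf V s) := by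
  rw [measurable_pi_iff]
  intro x
  unfold shf
  fun_prop

/-- The centre of the cell `w`. -/
def zc (q : ℕ) (w : Site) : Site := ((q : ℤ) * w.1, (q : ℤ) * w.2)

theorem eb_coord {z x : Site} {r : ℕ} (h : x ∈ eb z r) :
    (z.1 - r ≤ x.1 ∧ x.1 ≤ z.1 + r) ∧ (z.2 - r ≤ x.2 ∧ x.2 ≤ z.2 + r) := by
  unfold eb at h
  have h1 := (Finset.mem_filter.1 h).1
  unfold bx at h1
  rwa [Finset.mem_product, Finset.mem_Icc, Finset.mem_Icc] at h1

theorem eb_card (z : Site) (r : ℕ) (hr : 1 ≤ r) : ((eb z r).card : ℝ) ≤ 9 * (r : ℝ) ^ 2 := by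
  have h1 : (eb z r).card ≤ (2 * r + 1) ^ 2 := by
    unfold eb
    refine (Finset.card_filter_le _ _).trans ?_
    unfold bx
    rw [Finset.card_product, Int.card_Icc, Int.card_Icc]
    have h2 : (z.1 + (r : ℤ) + 1 - (z.1 - (r : ℤ))).toNat = 2 * r + 1 := by omega
    have h3 : (z.2 + (r : ℤ) + 1 - (z.2 - (r : ℤ))).toNat = 2 * r + 1 := by omega
    rw [h2, h3, sq]
  have h2 : (2 * r + 1) ^ 2 ≤ 9 * r ^ 2 := by nlinarith
  exact_mod_cast h1.trans h2

theorem eb_sub_box {q m r N : ℕ} {w : Site} (hw : w ∈ box m) (h : q * m + r ≤ N) :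
    eb (zc q w) r ⊆ box N := by
  intro x hx
  have h1 := eb_coord hx
  unfold zc at h1
  unfold box at hw ⊢
  rw [Finset.mem_product, Finset.mem_Icc, Finset.mem_Icc] at hw ⊢
  obtain ⟨⟨a1, a2⟩, a3, a4⟩ := hw
  have h2 : ((q * m + r : ℕ) : ℤ) ≤ N := by exact_mod_cast h
  push_cast at h2
  have hq : (0 : ℤ) ≤ q := Int.natCast_nonneg q
  have b1 := mul_le_mul_of_nonneg_left a1 hq
  have b2 := mul_le_mul_of_nonneg_left a2 hq
  have b3 := mul_le_mul_of_nonneg_left a3 hq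
  have b4 := mul_le_mul_of_nonneg_left a4 hq
  simp only at h1
  refine ⟨⟨?_, ?_⟩, ?_, ?_⟩ <;> nlinarith [h1.1.1, h1.1.2, h1.2.1, h1.2.2]

theorem eb_disj {r : ℕ} (hr : 1 ≤ r) {w w' : Site} (hne : w ≠ w') :
    Disjoint (eb (zc (3 * r) w) r) (eb (zc (3 * r) w') r) := by
  rw [Finset.disjoint_left]
  intro x hx hx'
  have h1 := eb_coord hx
  have h2 := eb_coord hx'
  unfold zc at h1 h2
  simp only at h1 h2
  push_cast at h1 h2
  have hr' : (1 : ℤ) ≤ r := by exact_mod_cast hr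
  apply hne
  have key : ∀ a b : ℤ, 3 * (r : ℤ) * a ≤ 3 * r * b + 2 * r → a ≤ b := by
    intro a b hab
    by_contra hcon
    push Not at hcon
    have h3 : b + 1 ≤ a := hcon
    have h4 : 3 * (r : ℤ) * (b + 1) ≤ 3 * r * a := mul_le_mul_of_nonneg_left h3 (by positivity)
    nlinarith
  refine Prod.ext (le_antisymm (key _ _ ?_) (key _ _ ?_)) (le_antisymm (key _ _ ?_) (key _ _ ?_))
  · linarith [h1.1.1, h1.1.2, h2.1.1, h2.1.2]
  · linarith [h1.1.1, h1.1.2, h2.1.1, h2.1.2]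
  · linarith [h1.2.1, h1.2.2, h2.2.1, h2.2.2]
  · linarith [h1.2.1, h1.2.2, h2.2.1, h2.2.2]

/-- Events depending on the disagreement set are measurable. -/
theorem meas_Ds (hM : Z_MEA) (R : ℕ) (J : Site → ℝ) (ε s : ℝ) (V Λ : Finset Site)
    (Q : Finset Site → Prop) :
    MeasurableSet {η : Site → ℝ | Q (Ds R J (fun x => ε * shf V s η x) Λ)} := by
  have h1 : {η : Site → ℝ | Q (Ds R J (fun x => ε * shf V s η x) Λ)} =
      ⋃ S ∈ {S : Finset Site | Q S}, {η | Ds R J (fun x => ε * shf V s η x) Λ = S} := by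
    ext η
    simp only [Set.mem_ofPred_eq, Set.mem_iUnion, exists_prop]
    constructor
    · intro h
      exact ⟨_, h, rfl⟩
    · rintro ⟨S, h2, h3⟩
      rw [h3]
      exact h2
  rw [h1]
  refine MeasurableSet.biUnion (Set.to_countable _) fun S _ => ?_
  have h2 : Measurable (fun (η : Site → ℝ) (x : Site) => ε * shf V s η x) := by
    rw [measurable_pi_iff]
    intro x
    exact ((measurable_pi_apply x).comp (shf_meas V s)).const_mul ε
  exact h2 (hM R J Λ S)

theorem shift_local {V Y : Finset Site} {s : ℝ} {A : Set (Site → ℝ)}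
    (hA : ∀ η η' : Site → ℝ, (∀ x ∈ Y, η x = η' x) → η ∈ A → η' ∈ A) :
    ∀ η η' : Site → ℝ, (∀ x ∈ Y, η x = η' x) → η ∈ {η | shf V s η ∈ A} →
      η' ∈ {η | shf V s η ∈ A} := by
  intro η η' h hη
  refine hA (shf V s η) (shf V s η') (fun x hx => ?_) hη
  unfold shf
  rw [h x hx]

/-- Independence of two events. -/
theorem ind_two (hIND : Z_IND) {Y Y' : Finset Site} {A A' : Set (Site → ℝ)}
    (hY : Disjoint Y Y') (hm : MeasurableSet A) (hm' : MeasurableSet A')
    (hA : ∀ η η' : Site → ℝ, (∀ x ∈ Y, η x = η' x) → η ∈ A → η' ∈ A)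
    (hA' : ∀ η η' : Site → ℝ, (∀ x ∈ Y', η x = η' x) → η ∈ A' → η' ∈ A') :
    gam (A ∩ A') = gam A * gam A' := by
  have h1 := hIND 2 ![Y, Y'] ![A, A'] (by
    intro i j hij
    fin_cases i <;> fin_cases j
    · exact absurd rfl hij
    · exact hY
    · exact hY.symm
    · exact absurd rfl hij) (by
    intro i
    fin_cases i
    · exact hm
    · exact hm') (by
    intro i
    fin_cases i
    · exact hA
    · exact hA')
  rw [Fin.prod_univ_two] at h1
  have h2 : (⋂ i : Fin 2, (![A, A'] : Fin 2 → Set (Site → ℝ)) i) = A ∩ A' := by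
    ext η
    simp only [Set.mem_iInter, Fin.forall_fin_two, Set.mem_inter_iff]
    rfl
  rw [h2] at h1
  exact h1

theorem pf_QLOW (hUPG : Q_UPG) (hCZ : Q_CZ) (hLAY : Q_LAY) (hCHB : Q_CHB) (hGL : Z_GL)
    (hIND : Z_IND) (hMEA : Z_MEA) : Q_LOW := by
  classical
  intro R J hJ hR hT δ₀ A C C' hC hCC hδ0 hδ1 hA
  have hC'1 : 1 ≤ C' := by omega
  have hC'0 : (0 : ℝ) < (C' : ℝ) := by exact_mod_cast hC'1
  refine ⟨C' + ⌈300 * (C' : ℝ) / δ₀⌉₊ + ⌈5 * A * (C' : ℝ)⌉₊, ?_⟩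
  intro n hn ε c s u hc hu hs hδ hshield
  have := gam_prob
  have hnC : C' ≤ n := by omega
  have hn1 : 300 * (C' : ℝ) / δ₀ ≤ n := by
    refine (Nat.le_ceil _).trans ?_
    exact_mod_cast (by omega : ⌈300 * (C' : ℝ) / δ₀⌉₊ ≤ n)
  have hn2 : 5 * A * (C' : ℝ) ≤ n := by
    refine (Nat.le_ceil _).trans ?_
    exact_mod_cast (by omega : ⌈5 * A * (C' : ℝ)⌉₊ ≤ n)
  have hn0 : (0 : ℝ) < n := lt_of_lt_of_le (by positivity) hn2
  have hu1 : 1 ≤ u := by omega
  have hu0 : (0 : ℝ) < u := by exact_mod_cast hu1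
  -- the cells
  obtain ⟨m, hm1, hm2⟩ : ∃ m : ℕ, (3 * m + 1) * C' ≤ n ∧ n < (3 * m + 4) * C' := by
    have h1 : 1 ≤ n / C' := (Nat.one_le_div_iff hC'1).2 hnC
    refine ⟨(n / C' - 1) / 3, ?_, ?_⟩
    · have h2 : 3 * ((n / C' - 1) / 3) + 1 ≤ n / C' := by omega
      exact (Nat.mul_le_mul_right _ h2).trans (Nat.div_mul_le_self _ _)
    · have h2 : n / C' + 1 ≤ 3 * ((n / C' - 1) / 3) + 4 := by omega
      refine lt_of_lt_of_le ?_ (Nat.mul_le_mul_right _ h2)
      have h3 := Nat.lt_mul_div_succ n hC'1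
      rw [Nat.mul_comm] at h3
      exact h3
  set I : Finset Site := box m with hI
  have hIcard : I.card = (2 * m + 1) ^ 2 := by
    rw [hI]
    unfold box
    rw [Finset.card_product, Int.card_Icc]
    have h2 : ((m : ℤ) + 1 - (-(m : ℤ))).toNat = 2 * m + 1 := by omega
    rw [h2, sq]
  have hIn : (n : ℝ) ^ 2 / (100 * (C' : ℝ) ^ 2) ≤ (I.card : ℝ) := by
    rw [div_le_iff₀ (by positivity), hIcard]
    have h1 : n ≤ 10 * C' * (2 * m + 1) := by nlinarith
    have h2 : (n : ℝ) ≤ 10 * C' * (2 * m + 1) := by exact_mod_cast h1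
    push_cast
    nlinarith [pow_le_pow_left₀ hn0.le h2 2]
  have hIbig : 800 / δ₀ ^ 2 ≤ (I.card : ℝ) := by
    refine le_trans ?_ hIn
    rw [div_le_div_iff₀ (by positivity) (by positivity)]
    have h1 : 300 * (C' : ℝ) ≤ n * δ₀ := by
      rwa [div_le_iff₀ hδ0] at hn1
    nlinarith [pow_le_pow_left₀ (by positivity : (0 : ℝ) ≤ 300 * (C' : ℝ)) h1 2]
  have hIpos : (0 : ℝ) < (I.card : ℝ) := lt_of_lt_of_le (by positivity) hIbig
  set V : Finset Site := box (n * u) with hV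
  set Λ : Finset Site := box (8 * (n * u)) with hΛ
  set r : ℕ := C' * u with hr
  have hr1 : 1 ≤ r := Nat.one_le_iff_ne_zero.2 (Nat.mul_ne_zero (by omega) (by omega))
  set z : Site → Site := zc (3 * r) with hz
  have hVΛ : V ⊆ Λ := by
    intro x hx
    rw [hV] at hx
    rw [hΛ]
    unfold box at hx ⊢
    rw [Finset.mem_product, Finset.mem_Icc, Finset.mem_Icc] at hx ⊢
    push_cast at hx ⊢
    have h1 : (0 : ℤ) ≤ (n : ℤ) * u := by positivity
    refine ⟨⟨?_, ?_⟩, ?_, ?_⟩ <;> linarith [hx.1.1, hx.1.2, hx.2.1, hx.2.2]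
  have hYV : ∀ w ∈ I, eb (z w) r ⊆ V := by
    intro w hw
    refine eb_sub_box hw ?_
    calc 3 * r * m + r = ((3 * m + 1) * C') * u := by rw [hr]; ring
      _ ≤ n * u := Nat.mul_le_mul_right _ hm1
  -- the events
  let Aw : Site → Set (Site → ℝ) := fun w => {η | c ≤ cz R J (fun x => ε * η x) u C' (z w)}
  let X : Site → Set (Site → ℝ) := fun w => {η | shf V s η ∈ Aw w}
  have hAwm : ∀ w, MeasurableSet (Aw w) := fun w =>
    measurableSet_le measurable_const (hCZ R J hJ ε u C' (z w)).1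
  have hXm : ∀ w, MeasurableSet (X w) := fun w => shf_meas V s (hAwm w)
  have hAwl : ∀ w, ∀ η η' : Site → ℝ, (∀ x ∈ eb (z w) r, η x = η' x) → η ∈ Aw w → η' ∈ Aw w := by
    intro w η η' h hη
    have h1 := (hCZ R J hJ ε u C' (z w)).2.2.1 η η' h
    show c ≤ cz R J (fun x => ε * η' x) u C' (z w)
    rw [← h1]
    exact hη
  have hXl : ∀ w, ∀ η η' : Site → ℝ, (∀ x ∈ eb (z w) r, η x = η' x) → η ∈ X w → η' ∈ X w := by
    intro w
    exact shift_local (hAwl w)
  have hAwP : ∀ w, δ₀ ≤ (gam (Aw w)).toReal := by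
    intro w
    have h1 := (hCZ R J hJ ε u C' (z w)).2.2.2.2.1 c
    show δ₀ ≤ (gam {η | c ≤ cz R J (fun x => ε * η x) u C' (z w)}).toReal
    rw [h1]
    exact hδ
  have hXP : ∀ w, δ₀ ^ 2 / 2 ≤ (gam (X w)).toReal := by
    intro w
    have h1 := hGL V (eb (z w) r) s (Aw w) (hAwm w) (hAwl w)
    have h2 : s ^ 2 * ((eb (z w) r).card : ℝ) ≤ 1 / 2 := by
      have h3 : s ^ 2 ≤ (A / (n * u)) ^ 2 := by
        rw [← sq_abs s]
        exact pow_le_pow_left₀ (abs_nonneg s) hs 2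
      calc s ^ 2 * ((eb (z w) r).card : ℝ) ≤ (A / (n * u)) ^ 2 * (9 * (r : ℝ) ^ 2) :=
            mul_le_mul h3 (eb_card _ _ hr1) (Nat.cast_nonneg _) (by positivity)
        _ = 9 * (A * C') ^ 2 / (n : ℝ) ^ 2 := by
            rw [hr]
            push_cast
            field_simp
        _ ≤ 1 / 2 := by
            rw [div_le_div_iff₀ (by positivity) (by norm_num)]
            nlinarith [pow_le_pow_left₀ (by positivity : (0 : ℝ) ≤ 5 * A * (C' : ℝ)) hn2 2]
    have h3 : Real.exp (s ^ 2 * ((eb (z w) r).card : ℝ)) ≤ 2 := by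
      refine (Real.exp_le_exp.2 h2).trans ?_
      have h4 : Real.exp (1 / 2) ^ 2 = Real.exp 1 := by
        rw [← Real.exp_nat_mul]
        norm_num
      have h5 := Real.exp_one_lt_d9
      nlinarith [Real.exp_pos (1 / 2 : ℝ)]
    have h4 : (0 : ℝ) ≤ (gam (X w)).toReal := ENNReal.toReal_nonneg
    have h5 := pow_le_pow_left₀ hδ0.le (hAwP w) 2
    have h6 : (gam (Aw w)).toReal ^ 2 ≤ 2 * (gam (X w)).toReal :=
      h1.trans (mul_le_mul_of_nonneg_right h3 h4)
    linarith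
  have hXind : ∀ w ∈ I, ∀ w' ∈ I, w ≠ w' → gam (X w ∩ X w') = gam (X w) * gam (X w') := by
    intro w _ w' _ hne
    exact ind_two hIND (eb_disj hr1 hne) (hXm w) (hXm w') (hXl w) (hXl w')
  have hch := hCHB (Site → ℝ) gam I X (δ₀ ^ 2 / 2) (fun y _ => hXm y) (by positivity)
    (fun y _ => hXP y) hXind
  set G : Set (Site → ℝ) := {ω | ∃ S : Finset Site, S ⊆ I ∧ (∀ y ∈ S, ω ∈ X y) ∧
    δ₀ ^ 2 / 2 * (I.card : ℝ) / 2 ≤ (S.card : ℝ)} with hG
  have hGP : 99 / 100 ≤ (gam G).toReal := by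
    have h1 : 4 / (δ₀ ^ 2 / 2 * (I.card : ℝ)) ≤ 1 / 100 := by
      rw [div_le_div_iff₀ (by positivity) (by norm_num)]
      rw [div_le_iff₀ (by positivity)] at hIbig
      linarith
    have h2 : 1 - 4 / (δ₀ ^ 2 / 2 * (I.card : ℝ)) ≤ (gam G).toReal := hch
    linarith
  have hGm : MeasurableSet G := by
    have h1 : G = ⋃ S : Finset Site, {ω | S ⊆ I ∧ (∀ y ∈ S, ω ∈ X y) ∧
        δ₀ ^ 2 / 2 * (I.card : ℝ) / 2 ≤ (S.card : ℝ)} := by
      ext ω
      simp only [hG, Set.mem_ofPred_eq, Set.mem_iUnion]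
    rw [h1]
    refine MeasurableSet.iUnion fun S => ?_
    by_cases h2 : S ⊆ I ∧ δ₀ ^ 2 / 2 * (I.card : ℝ) / 2 ≤ (S.card : ℝ)
    · have h3 : {ω | S ⊆ I ∧ (∀ y ∈ S, ω ∈ X y) ∧
          δ₀ ^ 2 / 2 * (I.card : ℝ) / 2 ≤ (S.card : ℝ)} = ⋂ y ∈ S, X y := by
        ext ω
        simp only [Set.mem_ofPred_eq, Set.mem_iInter]
        exact ⟨fun h => h.2.1, fun h => ⟨h2.1, h, h2.2⟩⟩
      rw [h3]
      exact Finset.measurableSet_biInter S fun y _ => hXm y
    · have h3 : {ω | S ⊆ I ∧ (∀ y ∈ S, ω ∈ X y) ∧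
          δ₀ ^ 2 / 2 * (I.card : ℝ) / 2 ≤ (S.card : ℝ)} = ∅ := by
        ext ω
        simp only [Set.mem_ofPred_eq, Set.mem_empty_iff_false, iff_false]
        exact fun h => h2 ⟨h.1, h.2.2⟩
      rw [h3]
      exact MeasurableSet.empty
  -- failing shields
  let F : Site → Set (Site → ℝ) := fun w =>
    {η | ¬ Shield (Ds R J (fun x => ε * shf V s η x) Λ) (z w) u C}
  have hFm : ∀ w, MeasurableSet (F w) := fun w =>
    meas_Ds hMEA R J ε s V Λ (fun D => ¬ Shield D (z w) u C)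
  have hFP : ∀ w ∈ I, (gam (F w)).toReal ≤ δ₀ ^ 2 / 3200 := fun w hw =>
    hshield (z w) (hYV w hw)
  let NF : (Site → ℝ) → ℝ := fun η => ∑ w ∈ I, (F w).indicator (fun _ => (1 : ℝ)) η
  have hNFm : Measurable NF := Finset.measurable_sum I fun w _ =>
    measurable_const.indicator (hFm w)
  have hIi : ∀ w, Integrable ((F w).indicator (fun _ => (1 : ℝ))) gam := fun w =>
    (integrable_const 1).indicator (hFm w)
  have hNFi : Integrable NF gam := integrable_finsetSum _ fun w _ => hIi w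
  have hNFI : ∫ η, NF η ∂gam ≤ (I.card : ℝ) * (δ₀ ^ 2 / 3200) := by
    simp only [NF]
    rw [integral_finsetSum _ fun w _ => hIi w]
    have h1 : ∀ w ∈ I, ∫ η, (F w).indicator (fun _ => (1 : ℝ)) η ∂gam ≤ δ₀ ^ 2 / 3200 := by
      intro w hw
      rw [integral_indicator (hFm w)]
      have h2 := hFP w hw
      simpa [Measure.real] using h2
    refine (Finset.sum_le_sum h1).trans (le_of_eq ?_)
    rw [Finset.sum_const, nsmul_eq_mul]
  have hNF0 : ∀ η, 0 ≤ NF η := by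
    intro η
    refine Finset.sum_nonneg fun w _ => ?_
    by_cases h : η ∈ F w <;> simp [h]
  set B : Set (Site → ℝ) := {η | δ₀ ^ 2 / 8 * (I.card : ℝ) < NF η} with hB
  have hBm : MeasurableSet B := measurableSet_lt measurable_const hNFm
  have hBP : (gam B).toReal ≤ 1 / 400 := by
    have h1 : (gam B).toReal * (δ₀ ^ 2 / 8 * (I.card : ℝ)) ≤ (I.card : ℝ) * (δ₀ ^ 2 / 3200) := by
      refine le_trans ?_ hNFI
      have h1 : (gam B).toReal * (δ₀ ^ 2 / 8 * (I.card : ℝ)) =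
          ∫ η, B.indicator (fun _ => δ₀ ^ 2 / 8 * (I.card : ℝ)) η ∂gam := by
        rw [integral_indicator hBm]
        simp [Measure.real]
      rw [h1]
      refine integral_mono ((integrable_const _).indicator hBm) hNFi fun η => ?_
      by_cases h : η ∈ B
      · rw [Set.indicator_of_mem h]
        exact le_of_lt h
      · rw [Set.indicator_of_notMem h]
        exact hNF0 η
    have h2 : (0 : ℝ) < δ₀ ^ 2 / 8 * (I.card : ℝ) := by positivity
    have h3 : (gam B).toReal * (δ₀ ^ 2 / 8 * (I.card : ℝ)) ≤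
        1 / 400 * (δ₀ ^ 2 / 8 * (I.card : ℝ)) := by linarith
    exact le_of_mul_le_mul_right h3 h2
  -- the deterministic part
  have hdet : (Gᶜ ∪ B)ᶜ ⊆ {η | δ₀ ^ 2 / 8 * ((n : ℝ) ^ 2 / (100 * (C' : ℝ) ^ 2)) *
        (c * u / (R * Jt R J)) ≤
      ((Ds R J (fun x => ε * shf V s η x) Λ ∩ V).card : ℝ)} := by
    intro η hη
    rw [Set.compl_union, compl_compl, Set.mem_inter_iff, Set.mem_compl_iff] at hη
    obtain ⟨⟨S, hSI, hSX, hSc⟩, hηB⟩ := hη
    have hηB' : NF η ≤ δ₀ ^ 2 / 8 * (I.card : ℝ) := not_lt.1 hηB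
    set D := Ds R J (fun x => ε * shf V s η x) Λ with hD
    -- the good cells
    let S' : Finset Site := S.filter (fun w => η ∉ F w)
    have hS'c : δ₀ ^ 2 / 8 * (I.card : ℝ) ≤ (S'.card : ℝ) := by
      have h1 : (S.card : ℝ) = (S'.card : ℝ) + ((S.filter (fun w => η ∈ F w)).card : ℝ) := by
        have h2 := Finset.card_filter_add_card_filter_not (s := S) (fun w => η ∈ F w)
        rw [← h2]
        push_cast
        ring
      have h2 : ((S.filter (fun w => η ∈ F w)).card : ℝ) ≤ NF η := by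
        have h3 : NF η = ((I.filter (fun w => η ∈ F w)).card : ℝ) := by
          simp only [NF, Set.indicator_apply]
          rw [Finset.sum_ite, Finset.sum_const_zero, add_zero, Finset.sum_const, nsmul_eq_mul,
            mul_one]
        rw [h3]
        exact_mod_cast Finset.card_le_card (Finset.filter_subset_filter _ hSI)
      linarith
    let Tw : Site → Finset Site := fun w =>
      (Ds R J (fun x => ε * shf V s η x) (eb (z w) (C' * u)) ∩ eb (z w) (10 * u)) \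
        eb (z w) (5 * u)
    have hTw1 : ∀ w ∈ S', Tw w ⊆ D ∩ V := by
      intro w hw x hx
      obtain ⟨hwS, hwF⟩ := Finset.mem_filter.1 hw
      have hsh : Shield D (z w) u C := by
        by_contra h
        exact hwF h
      have h1 := hUPG R J hJ hT (fun x => ε * shf V s η x) Λ (z w) u C C' hCC hC hu1
        ((hYV w (hSI hwS)).trans hVΛ) hsh
      obtain ⟨h2, -⟩ := Finset.mem_sdiff.1 hx
      obtain ⟨h3, h4⟩ := Finset.mem_inter.1 h2
      have h5 : x ∈ eb (z w) (12 * u) := eb_mono _ (by omega) h4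
      have h6 : x ∈ eb (z w) r := eb_mono _ (by
        rw [hr]
        exact Nat.mul_le_mul_right _ (by omega)) h4
      exact Finset.mem_inter.2 ⟨h1 (Finset.mem_inter.2 ⟨h3, h5⟩), hYV w (hSI hwS) h6⟩
    have hTw2 : ∀ w ∈ S', c * u / (R * Jt R J) ≤ ((Tw w).card : ℝ) := by
      intro w hw
      obtain ⟨hwS, -⟩ := Finset.mem_filter.1 hw
      have h1 := hLAY R J hJ hR (fun x => ε * shf V s η x) u C' (z w) (by omega) (by omega)
      have h2 : c ≤ cz R J (fun x => ε * shf V s η x) u C' (z w) := hSX w hwS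
      have h3 : c * u ≤ ((Tw w).card : ℝ) * (R * Jt R J) := by
        calc c * u ≤ cz R J (fun x => ε * shf V s η x) u C' (z w) * u :=
              mul_le_mul_of_nonneg_right h2 hu0.le
          _ ≤ _ := h1
          _ = _ := by ring
      exact div_le_of_le_mul₀ (mul_nonneg (Nat.cast_nonneg R) (Jt_nonneg hJ))
        (Nat.cast_nonneg _) h3
    have hTw3 : (↑S' : Set Site).PairwiseDisjoint Tw := by
      intro w _ w' _ hne
      have h1 := eb_disj hr1 hne
      have h2 : ∀ w, Tw w ⊆ eb (z w) r := by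
        intro w x hx
        refine eb_mono _ ?_ (Finset.mem_inter.1 (Finset.mem_sdiff.1 hx).1).2
        rw [hr]
        exact Nat.mul_le_mul_right _ (by omega)
      exact Finset.disjoint_of_subset_left (h2 w) (Finset.disjoint_of_subset_right (h2 w') h1)
    have hcard : ∑ w ∈ S', (Tw w).card ≤ (D ∩ V).card := by
      rw [← Finset.card_biUnion hTw3]
      exact Finset.card_le_card (Finset.biUnion_subset.2 hTw1)
    have hq0 : 0 ≤ c * u / (R * Jt R J) :=
      div_nonneg (by positivity) (mul_nonneg (Nat.cast_nonneg R) (Jt_nonneg hJ))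
    show δ₀ ^ 2 / 8 * ((n : ℝ) ^ 2 / (100 * (C' : ℝ) ^ 2)) * (c * u / (R * Jt R J)) ≤
      ((D ∩ V).card : ℝ)
    calc δ₀ ^ 2 / 8 * ((n : ℝ) ^ 2 / (100 * (C' : ℝ) ^ 2)) * (c * u / (R * Jt R J)) ≤
          δ₀ ^ 2 / 8 * (I.card : ℝ) * (c * u / (R * Jt R J)) := by
          refine mul_le_mul_of_nonneg_right ?_ hq0
          exact mul_le_mul_of_nonneg_left hIn (by positivity)
      _ ≤ (S'.card : ℝ) * (c * u / (R * Jt R J)) := mul_le_mul_of_nonneg_right hS'c hq0
      _ = ∑ _w ∈ S', (c * u / (R * Jt R J)) := by rw [Finset.sum_const, nsmul_eq_mul]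
      _ ≤ ∑ w ∈ S', ((Tw w).card : ℝ) := Finset.sum_le_sum hTw2
      _ ≤ ((D ∩ V).card : ℝ) := by exact_mod_cast hcard
  have h1 : (gam (Gᶜ ∪ B)).toReal ≤ 1 / 100 + 1 / 400 := by
    have h2 : (gam (Gᶜ ∪ B)).toReal ≤ (gam Gᶜ).toReal + (gam B).toReal := by
      rw [← ENNReal.toReal_add (measure_ne_top _ _) (measure_ne_top _ _)]
      exact ENNReal.toReal_mono
        (ENNReal.add_ne_top.2 ⟨measure_ne_top _ _, measure_ne_top _ _⟩) (measure_union_le _ _)
    have h3 : (gam Gᶜ).toReal = 1 - (gam G).toReal := probReal_compl_eq_one_sub hGm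
    linarith
  have h2 : (gam (Gᶜ ∪ B)ᶜ).toReal = 1 - (gam (Gᶜ ∪ B)).toReal :=
    probReal_compl_eq_one_sub (hGm.compl.union hBm)
  have h3 := ENNReal.toReal_mono (measure_ne_top gam _) (measure_mono hdet)
  linarith

end Pool.Agent.H65.RFZ.QLOW
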