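import Pool.Agent.H98.RFZ.Targets3

/-!
Row QPAR of the board rfz_modules: crossing paths of the triangular lattice meet.
-/

set_option autoImplicit false

noncomputable section

namespace Pool.Agent.H65.RFZ.QPAR

open Pool.Agent.H98.RFC Pool.Agent.H98.RFZ

/-- Signed crossing of the step `p → q` through the ray above the left endpoint `w`. -/
def sc (w p q : Site) : ℤ :=
  (if p.1 = w.1 ∧ q.1 = w.1 + 1 ∧ w.2 < p.2 then 1 else 0) -
    (if q.1 = w.1 ∧ p.1 = w.1 + 1 ∧ w.2 < q.2 then 1 else 0)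

/-- Part of the column of `w` above `w`. -/
def up (w z : Site) : ℤ := if z.1 = w.1 ∧ w.2 < z.2 then 1 else 0

theorem tri_iff (z : Site) : Tri z ↔ (z.1 = 0 ∧ z.2 = 0) ∨ (z.1 = 1 ∧ z.2 = 0) ∨
    (z.1 = -1 ∧ z.2 = 0) ∨ (z.1 = 0 ∧ z.2 = 1) ∨ (z.1 = 0 ∧ z.2 = -1) ∨ (z.1 = 1 ∧ z.2 = 1) ∨
    (z.1 = -1 ∧ z.2 = -1) := by
  unfold Tri
  simp only [Prod.ext_iff]

theorem ne_iff (p w : Site) : p ≠ w ↔ ¬ (p.1 = w.1 ∧ p.2 = w.2) := by
  rw [ne_eq, Prod.ext_iff]

theorem step_v (w w' p q : Site) (h1 : w'.1 = w.1) (h2 : w'.2 = w.2 + 1) (hp : p ≠ w')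
    (hq : q ≠ w') : sc w p q = sc w' p q := by
  rw [ne_iff] at hp hq
  unfold sc
  split_ifs <;> omega

theorem step_h (w w' p q : Site) (h1 : w'.1 = w.1 + 1) (h2 : w'.2 = w.2 ∨ w'.2 = w.2 + 1)
    (hpq : Tri (q - p)) (hp : p ≠ w) (hq : q ≠ w) (hp' : p ≠ w') (hq' : q ≠ w') :
    sc w p q - sc w' p q = up w' q - up w' p := by
  rw [ne_iff] at hp hq hp' hq'
  rw [tri_iff, Prod.fst_sub, Prod.snd_sub] at hpq
  unfold sc up
  rcases hpq with h | h | h | h | h | h | h <;> split_ifs <;> omega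

/-- The crossing number of the path `x`. -/
def cn (x : ℕ → Site) (k : ℕ) (w : Site) : ℤ := ∑ i ∈ Finset.range k, sc w (x i) (x (i + 1))

theorem cn_v (x : ℕ → Site) (k : ℕ) (w w' : Site) (h1 : w'.1 = w.1) (h2 : w'.2 = w.2 + 1)
    (hx : ∀ i, i ≤ k → x i ≠ w') : cn x k w = cn x k w' := by
  unfold cn
  refine Finset.sum_congr rfl fun i hi => ?_
  rw [Finset.mem_range] at hi
  exact step_v w w' _ _ h1 h2 (hx i hi.le) (hx (i + 1) hi)

theorem cn_h (x : ℕ → Site) (k : ℕ) (w w' : Site) (h1 : w'.1 = w.1 + 1)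
    (h2 : w'.2 = w.2 ∨ w'.2 = w.2 + 1) (hT : ∀ i, i < k → Tri (x (i + 1) - x i))
    (hx : ∀ i, i ≤ k → x i ≠ w) (hx' : ∀ i, i ≤ k → x i ≠ w')
    (h0 : (x 0).1 < w'.1) (hk : w'.1 < (x k).1) : cn x k w = cn x k w' := by
  have h3 : cn x k w - cn x k w' = ∑ i ∈ Finset.range k, (up w' (x (i + 1)) - up w' (x i)) := by
    unfold cn
    rw [← Finset.sum_sub_distrib]
    refine Finset.sum_congr rfl fun i hi => ?_
    rw [Finset.mem_range] at hi
    exact step_h w w' _ _ h1 h2 (hT i hi) (hx i hi.le) (hx (i + 1) hi) (hx' i hi.le)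
      (hx' (i + 1) hi)
  rw [Finset.sum_range_sub (fun i => up w' (x i))] at h3
  have h4 : up w' (x k) = 0 := by
    unfold up
    rw [if_neg]
    omega
  have h5 : up w' (x 0) = 0 := by
    unfold up
    rw [if_neg]
    omega
  rw [h4, h5] at h3
  linarith

theorem pf_QPAR : Q_PAR := by
  intro k l x y hx hy hcol hlo hhi
  by_contra hcon
  push Not at hcon
  have hinv : ∀ j, j ≤ l → cn x k (y 0) = cn x k (y j) := by
    intro j
    induction j with
    | zero => intro _; rfl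
    | succ j ih =>
      intro hj
      rw [ih (by omega)]
      have hn1 : ∀ i, i ≤ k → x i ≠ y j := fun i hi => hcon i j hi (by omega)
      have hn2 : ∀ i, i ≤ k → x i ≠ y (j + 1) := fun i hi => hcon i (j + 1) hi hj
      have hc1 := hcol j (by omega)
      have hc2 := hcol (j + 1) hj
      have hT := hy j (by omega)
      rw [tri_iff, Prod.fst_sub, Prod.snd_sub] at hT
      rcases hT with h | h | h | h | h | h | h
      · have h1 : y (j + 1) = y j := Prod.ext (by omega) (by omega)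
        rw [h1]
      · exact cn_h x k _ _ (by omega) (Or.inl (by omega)) hx hn1 hn2 hc2.1 hc2.2
      · exact (cn_h x k _ _ (by omega) (Or.inl (by omega)) hx hn2 hn1 hc1.1 hc1.2).symm
      · exact cn_v x k _ _ (by omega) (by omega) hn2
      · exact (cn_v x k _ _ (by omega) (by omega) hn1).symm
      · exact cn_h x k _ _ (by omega) (Or.inr (by omega)) hx hn1 hn2 hc2.1 hc2.2
      · exact (cn_h x k _ _ (by omega) (Or.inr (by omega)) hx hn2 hn1 hc1.1 hc1.2).symm
  -- the start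
  have h1 : cn x k (y 0) = 1 := by
    have h2 : cn x k (y 0) = ∑ i ∈ Finset.range k,
        ((if (y 0).1 + 1 ≤ (x (i + 1)).1 then (1 : ℤ) else 0) -
          (if (y 0).1 + 1 ≤ (x i).1 then (1 : ℤ) else 0)) := by
      unfold cn
      refine Finset.sum_congr rfl fun i hi => ?_
      rw [Finset.mem_range] at hi
      have h3 := hx i hi
      rw [tri_iff, Prod.fst_sub, Prod.snd_sub] at h3
      have h4 := hlo i hi.le
      have h5 := hlo (i + 1) hi
      unfold sc
      rcases h3 with h | h | h | h | h | h | h <;> split_ifs <;> omega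
    rw [h2, Finset.sum_range_sub (fun i => if (y 0).1 + 1 ≤ (x i).1 then (1 : ℤ) else 0)]
    have h3 := hcol 0 (Nat.zero_le _)
    rw [if_pos (by omega), if_neg (by omega)]
    norm_num
  have h2 : cn x k (y l) = 0 := by
    unfold cn
    refine Finset.sum_eq_zero fun i hi => ?_
    rw [Finset.mem_range] at hi
    have h4 := hhi i hi.le
    have h5 := hhi (i + 1) hi
    unfold sc
    split_ifs <;> omega
  have h3 := hinv l le_rfl
  rw [h1, h2] at h3
  exact one_ne_zero h3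

end Pool.Agent.H65.RFZ.QPAR
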