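import Pool.Agent.H98.RFZ.Targets3

/-!
Row QUPG of the board rfz_modules: a shield upgrades the local disagreement set.
-/

set_option autoImplicit false

noncomputable section

namespace Pool.Agent.H65.RFZ.QUPG

open Pool.Agent.H98.RFC Pool.Agent.H98.RFZ

theorem mem_eb (z x : Site) (r : ℕ) : x ∈ eb z r ↔ nsq (x - z) ≤ (r : ℤ) ^ 2 := by
  unfold eb
  rw [Finset.mem_filter]
  constructor
  · exact fun h => h.2
  · intro h
    refine ⟨?_, h⟩
    unfold nsq at h
    rw [Prod.fst_sub, Prod.snd_sub] at h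
    unfold bx
    rw [Finset.mem_product, Finset.mem_Icc, Finset.mem_Icc]
    have h1 : (x.1 - z.1) ^ 2 ≤ (r : ℤ) ^ 2 := by nlinarith [sq_nonneg (x.2 - z.2)]
    have h2 : (x.2 - z.2) ^ 2 ≤ (r : ℤ) ^ 2 := by nlinarith [sq_nonneg (x.1 - z.1)]
    have h3 := abs_le_of_sq_le_sq' h1 (Int.natCast_nonneg r)
    have h4 := abs_le_of_sq_le_sq' h2 (Int.natCast_nonneg r)
    refine ⟨⟨?_, ?_⟩, ?_, ?_⟩
    · linarith [h3.1]
    · linarith [h3.2]
    · linarith [h4.1]
    · linarith [h4.2]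

theorem eb_mono (z : Site) {r s : ℕ} (h : r ≤ s) : eb z r ⊆ eb z s := by
  intro x hx
  rw [mem_eb] at hx ⊢
  have h1 : (r : ℤ) ≤ s := by exact_mod_cast h
  exact hx.trans (pow_le_pow_left₀ (Int.natCast_nonneg r) h1 2)

theorem tri_neg {z : Site} (h : Tri z) : Tri (-z) := by
  unfold Tri at h ⊢
  rcases h with rfl | rfl | rfl | rfl | rfl | rfl | rfl <;> simp

theorem pf_QUPG (hSH : Z_SH) (hDM : Z_DM) : Q_UPG := by
  classical
  intro R J hJ hT h Λ z u C C' hCC hC hu hΛ hsh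
  have h12 : 12 * u ≤ C * u := Nat.mul_le_mul_right _ hC
  have hC' : C * u ≤ C' * u := Nat.mul_le_mul_right _ hCC
  let Q : Site → Prop := fun x => ∃ (l : ℕ) (y : ℕ → Site),
    (∀ i, i < l → Tri (y (i + 1) - y i)) ∧ y 0 ∈ eb z (12 * u) ∧ y l = x ∧
      ∀ j, j ≤ l → y j ∈ eb z (12 * u) ∨ y j ∉ Ds R J h Λ
  have hQ : ∀ x, Q x → x ∈ eb z (C * u) := by
    rintro x ⟨l, y, h1, h2, h3, h4⟩
    by_contra hx
    rw [← h3] at hx
    obtain ⟨j, hj, hj1, hj2⟩ := hsh l y h1 h2 hx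
    rcases h4 j hj with h5 | h5
    · exact hj2 h5
    · exact h5 hj1
  let W : Finset Site := (eb z (C * u)).filter Q
  have hWm : ∀ x, x ∈ W ↔ Q x := by
    intro x
    rw [Finset.mem_filter]
    exact ⟨fun h1 => h1.2, fun h1 => ⟨hQ x h1, h1⟩⟩
  have hW1 : W ⊆ eb z (C' * u) := fun x hx => eb_mono z hC' (hQ x ((hWm x).1 hx))
  have hW2 : W ⊆ Λ := hW1.trans hΛ
  have h0 : ∀ x ∈ eb z (12 * u), x ∈ W := by
    intro x hx
    rw [hWm]
    exact ⟨0, fun _ => x, fun i hi => absurd hi (Nat.not_lt_zero i), hx, rfl, fun j _ => Or.inl hx⟩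
  have hbd : ∀ a ∈ W, ∀ b, b ∉ W → 0 < J (a - b) → (b ∈ Ds R J h Λ ∨ b ∉ Λ) := by
    intro a ha b hb hab
    by_contra hcon
    push Not at hcon
    obtain ⟨hcon, -⟩ := hcon
    obtain ⟨l, y, h1, h2, h3, h4⟩ := (hWm a).1 ha
    have hTab : Tri (b - a) := by
      have h5 := tri_neg (hT (a - b) hab.ne')
      rwa [neg_sub] at h5
    refine hb ((hWm b).2 ⟨l + 1, fun i => if i ≤ l then y i else b, ?_, ?_, ?_, ?_⟩)
    · intro i hi
      by_cases h6 : i + 1 ≤ l
      · have h7 : i ≤ l := by omega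
        simp only [h6, h7, if_true]
        exact h1 i (by omega)
      · have h7 : i = l := by omega
        subst h7
        simp only [le_refl, if_true]
        rw [if_neg (by omega), h3]
        exact hTab
    · simp [h2]
    · simp
    · intro j _
      by_cases h6 : j ≤ l
      · simp only [h6, if_true]
        exact h4 j h6
      · simp only [h6, if_false]
        exact Or.inr hcon
  have hS := hSH R J hJ h W Λ hW2 hbd
  have hD := hDM R J hJ h W (eb z (C' * u)) hW1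
  intro x hx
  rw [Finset.mem_inter] at hx
  have h1 : x ∈ Ds R J h W := hD (Finset.mem_inter.2 ⟨hx.1, h0 x hx.2⟩)
  rw [← hS] at h1
  exact (Finset.mem_inter.1 h1).1

end Pool.Agent.H65.RFZ.QUPG
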